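import Pool.Agent.R562.PR.Non

/-!
# Search for power nonresidues: trial division up to `p ^ (1 / E)`, then trial of `1, 2, 3, …`

The state is `(p, k, R, L, i, S)`: `k` is the current trial divisor, `R` the remaining cofactor of
`p - 1`, `L` the list of the prime factors found so far, `i` the current candidate and `S` the list of
the nonresidues found so far.
-/

set_option autoImplicit false

namespace Pool.Agent.NH20.BT

open Finset Pool.Agent.NPC Pool.Agent.H595R2.PR Pool.Agent.R562.PR

/-- states -/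
abbrev St := ℕ × ℕ × ℕ × List ℕ × ℕ × List ℕ

/-- `s` is an `l`-th power modulo `p` -/
def isRes (p l s : ℕ) : Bool := decide (pw p s ((p - 1) / l) = md p 1)

/-- the members `l` of `L` for which `S` contains no `l`-th power nonresidue -/
def unres (p : ℕ) (L S : List ℕ) : List ℕ := L.filter fun l => S.all fun s => isRes p l s

/-- one round -/
def stp (E : ℕ) (x : St) : St :=
  if x.2.1 ^ E ≤ x.1 then
    if x.2.2.1 % x.2.1 = 0 then
      (x.1, x.2.1, x.2.2.1 / x.2.1, x.2.1 :: x.2.2.2.1, x.2.2.2.2.1, x.2.2.2.2.2)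
    else (x.1, x.2.1 + 1, x.2.2.1, x.2.2.2.1, x.2.2.2.2.1, x.2.2.2.2.2)
  else if (unres x.1 x.2.2.2.1 x.2.2.2.2.2).isEmpty = true then x
  else (x.1, x.2.1, x.2.2.1, x.2.2.2.1, x.2.2.2.2.1 + 1,
    if (unres x.1 x.2.2.2.1 x.2.2.2.2.2).all (fun l => isRes x.1 l x.2.2.2.2.1) = true then
      x.2.2.2.2.2 else x.2.2.2.2.1 :: x.2.2.2.2.2)

/-- the initial state -/
def ini (p : ℕ) : St := (p, 2, p - 1, [], 1, [])

/-- the algorithm has stopped -/
def Halt (E : ℕ) (x : St) : Prop :=
  x.1 < x.2.1 ^ E ∧ unres x.1 x.2.2.2.1 x.2.2.2.2.2 = []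

theorem stp_halt {E : ℕ} {x : St} (h : Halt E x) : stp E x = x := by
  unfold stp
  rw [if_neg (by have := h.1; omega), if_pos (by rw [h.2]; rfl)]

/-- the invariant -/
structure Inv (p E Y : ℕ) (x : St) : Prop where
  hp : x.1 = p
  hk : 2 ≤ x.2.1
  hR : 1 ≤ x.2.2.1
  hprod : x.2.2.1 * x.2.2.2.1.prod = p - 1
  hprime : ∀ l ∈ x.2.2.2.1, l.Prime ∧ l ^ E ≤ p
  hrough : ∀ q : ℕ, q.Prime → q ∣ x.2.2.1 → x.2.1 ≤ q
  hkE : (x.2.1 - 1) ^ E ≤ p
  hph : x.2.1 ^ E ≤ p → x.2.2.2.2.1 = 1 ∧ x.2.2.2.2.2 = []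
  hi : 1 ≤ x.2.2.2.2.1
  hiY : x.2.2.2.2.1 ≤ Y + 1
  hS : ∀ s ∈ x.2.2.2.2.2, 1 ≤ s ∧ s < x.2.2.2.2.1
  hlen : x.2.2.2.2.2.length + (unres p x.2.2.2.1 x.2.2.2.2.2).length ≤ x.2.2.2.1.length
  hold : ∀ l ∈ unres p x.2.2.2.1 x.2.2.2.2.2, ∀ j, 1 ≤ j → j < x.2.2.2.2.1 → isRes p l j = true

theorem inv_ini {p E Y : ℕ} (hp3 : 3 ≤ p) : Inv p E Y (ini p) where
  hp := rfl
  hk := le_rfl
  hR := by show 1 ≤ p - 1; omega
  hprod := by simp [ini]
  hprime := by simp [ini]
  hrough := fun q hq _ => hq.two_le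
  hkE := by simp [ini]; omega
  hph := fun _ => ⟨rfl, rfl⟩
  hi := le_rfl
  hiY := by simp [ini]
  hS := by simp [ini]
  hlen := by simp [ini, unres]
  hold := by simp [ini, unres]

theorem unres_cons_sub (p : ℕ) (L S : List ℕ) (i : ℕ) :
    unres p L (i :: S) = (unres p L S).filter fun l => isRes p l i := by
  unfold unres
  rw [List.filter_filter]
  congr 1

/-- the invariant is preserved -/
theorem inv_step {p E Y : ℕ}
    (hY : ∀ l : ℕ, l.Prime → l ∣ p - 1 → l ^ E ≤ p → ∃ j, 1 ≤ j ∧ j ≤ Y ∧ isRes p l j = false)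
    {x : St} (hx : Inv p E Y x) (hnh : ¬ Halt E x) :
    Inv p E Y (stp E x) ∧ (stp E x).2.1 + (stp E x).2.2.2.1.length + (stp E x).2.2.2.2.1 =
      x.2.1 + x.2.2.2.1.length + x.2.2.2.2.1 + 1 := by
  obtain ⟨p', k, R, L, i, S⟩ := x
  obtain ⟨hp, hk, hR, hprod, hprime, hrough, hkE, hph, hi, hiY, hS, hlen, hold⟩ := hx
  simp only at hp hk hR hprod hprime hrough hkE hph hi hiY hS hlen hold
  subst hp
  by_cases h1 : k ^ E ≤ p'
  · obtain ⟨hi1, hS1⟩ := hph h1
    subst hi1 hS1
    by_cases h2 : R % k = 0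
    · have e : stp E (p', k, R, L, 1, []) = (p', k, R / k, k :: L, 1, []) := by
        unfold stp
        rw [if_pos h1, if_pos h2]
      rw [e]
      have hkR : k ∣ R := Nat.dvd_of_mod_eq_zero h2
      have hkp : k.Prime := by
        have h3 : k.minFac.Prime := Nat.minFac_prime (by omega)
        have h4 := hrough _ h3 ((Nat.minFac_dvd k).trans hkR)
        have h5 := Nat.minFac_le (n := k) (by omega)
        have h6 : k.minFac = k := le_antisymm h5 h4
        rw [h6] at h3
        exact h3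
      refine ⟨⟨rfl, hk, ?_, ?_, ?_, ?_, hkE, fun _ => ⟨rfl, rfl⟩, le_rfl, hiY, by simp, ?_, ?_⟩,
        by simp only [List.length_cons]; omega⟩
      · exact Nat.div_pos (Nat.le_of_dvd hR hkR) (by omega)
      · show R / k * (k :: L).prod = p' - 1
        rw [List.prod_cons, ← mul_assoc, Nat.div_mul_cancel hkR]
        exact hprod
      · intro l hl
        rcases List.mem_cons.1 hl with h | h
        · subst h; exact ⟨hkp, h1⟩
        · exact hprime l h
      · intro q hq hd
        exact hrough q hq (hd.trans (Nat.div_dvd_of_dvd hkR))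
      · show 0 + (unres p' (k :: L) []).length ≤ (k :: L).length
        rw [zero_add]
        exact List.length_filter_le _ _
      · intro l _ j hj1 hj2
        exfalso
        simp only at hj2
        omega
    · have e : stp E (p', k, R, L, 1, []) = (p', k + 1, R, L, 1, []) := by
        unfold stp
        rw [if_pos h1, if_neg h2]
      rw [e]
      refine ⟨⟨rfl, ?_, hR, hprod, hprime, ?_, ?_, fun _ => ⟨rfl, rfl⟩, le_rfl, hiY, by simp, hlen,
        hold⟩, by show k + 1 + L.length + 1 = k + L.length + 1 + 1; omega⟩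
      · show 2 ≤ k + 1; omega
      · intro q hq hd
        have h3 := hrough q hq hd
        show k + 1 ≤ q
        rcases Nat.lt_or_ge k q with h | h
        · exact h
        · exfalso
          have : q = k := le_antisymm h h3
          subst this
          exact h2 (Nat.mod_eq_zero_of_dvd hd)
      · show (k + 1 - 1) ^ E ≤ p'
        simpa using h1
  · have hne : unres p' L S ≠ [] := fun h => hnh ⟨by show p' < k ^ E; omega, h⟩
    have hemp : ¬ (unres p' L S).isEmpty = true := by
      rw [List.isEmpty_iff]; exact hne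
    -- an unresolved prime
    obtain ⟨l0, hl0⟩ := List.exists_mem_of_ne_nil _ hne
    have hl0L : l0 ∈ L := List.mem_of_mem_filter hl0
    have hl0d : l0 ∣ p' - 1 := by
      rw [← hprod]
      exact Dvd.dvd.mul_left (List.dvd_prod hl0L) _
    obtain ⟨j, hj1, hjY, hj⟩ := hY l0 (hprime l0 hl0L).1 hl0d (hprime l0 hl0L).2
    have hiY' : i ≤ Y := by
      by_contra hcon
      have := hold l0 hl0 j hj1 (by omega)
      rw [hj] at this
      exact Bool.noConfusion this
    by_cases h3 : (unres p' L S).all (fun l => isRes p' l i) = true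
    · have e : stp E (p', k, R, L, i, S) = (p', k, R, L, i + 1, S) := by
        unfold stp
        rw [if_neg h1, if_neg hemp]
        simp only
        rw [if_pos h3]
      rw [e]
      refine ⟨⟨rfl, hk, hR, hprod, hprime, hrough, hkE, fun h => absurd h h1, ?_, ?_, ?_, hlen, ?_⟩,
        by show k + L.length + (i + 1) = k + L.length + i + 1; omega⟩
      · show 1 ≤ i + 1; omega
      · show i + 1 ≤ Y + 1; omega
      · intro s hs
        have := hS s hs
        show 1 ≤ s ∧ s < i + 1
        omega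
      · intro l hl j' h4 h5
        simp only at h5
        rcases Nat.lt_succ_iff_lt_or_eq.1 h5 with h6 | h6
        · exact hold l hl j' h4 h6
        · subst h6
          rw [List.all_eq_true] at h3
          exact h3 l hl
    · have e : stp E (p', k, R, L, i, S) = (p', k, R, L, i + 1, i :: S) := by
        unfold stp
        rw [if_neg h1, if_neg hemp]
        simp only
        rw [if_neg h3]
      rw [e]
      refine ⟨⟨rfl, hk, hR, hprod, hprime, hrough, hkE, fun h => absurd h h1, ?_, ?_, ?_, ?_, ?_⟩,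
        by show k + L.length + (i + 1) = k + L.length + i + 1; omega⟩
      · show 1 ≤ i + 1; omega
      · show i + 1 ≤ Y + 1; omega
      · intro s hs
        show 1 ≤ s ∧ s < i + 1
        rcases List.mem_cons.1 hs with h | h
        · subst h; omega
        · have := hS s h; omega
      · show (i :: S).length + (unres p' L (i :: S)).length ≤ L.length
        have h4 : (unres p' L (i :: S)).length < (unres p' L S).length := by
          rw [unres_cons_sub]
          apply List.length_filter_lt_length_iff_exists.2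
          rw [List.all_eq_true] at h3
          push Not at h3
          obtain ⟨l, hl, hl'⟩ := h3
          exact ⟨l, hl, hl'⟩
        rw [List.length_cons]
        omega
      · intro l hl j' h4 h5
        simp only at h5 hl
        rw [unres_cons_sub, List.mem_filter] at hl
        rcases Nat.lt_succ_iff_lt_or_eq.1 h5 with h6 | h6
        · exact hold l hl.1 j' h4 h6
        · subst h6
          exact hl.2

theorem iter_halt {E : ℕ} {x : St} {t u : ℕ} (h : Halt E ((stp E)^[t] x)) (htu : t ≤ u) :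
    (stp E)^[u] x = (stp E)^[t] x := by
  obtain ⟨v, rfl⟩ := Nat.exists_eq_add_of_le htu
  rw [add_comm, Function.iterate_add_apply]
  induction v with
  | zero => rfl
  | succ v ih => rw [Function.iterate_succ_apply', ih (by omega), stp_halt h]

theorem length_le_of_prod {p : ℕ} {L : List ℕ} (h : ∀ l ∈ L, l.Prime) (R : ℕ) (hR : 1 ≤ R)
    (hprod : R * L.prod = p - 1) (hp : 1 ≤ p) : L.length < p.size := by
  have h1 : 2 ^ L.length ≤ L.prod := by
    clear hprod
    induction L with
    | nil => simp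
    | cons a L ih =>
      rw [List.length_cons, List.prod_cons, pow_succ, mul_comm]
      exact Nat.mul_le_mul (h a List.mem_cons_self).two_le
        (ih fun l hl => h l (List.mem_cons_of_mem _ hl))
  have h2 : L.prod ≤ p - 1 := by
    rw [← hprod]
    exact Nat.le_mul_of_pos_left _ hR
  have h3 : 2 ^ L.length ≤ p := by omega
  exact Nat.lt_size.2 h3

/-- the run of the algorithm -/
theorem run {p E Y K : ℕ} (hp : p.Prime) (hp3 : 3 ≤ p)
    (hK : ∀ k : ℕ, (k - 1) ^ E ≤ p → k ≤ K)
    (hY : ∀ l : ℕ, l.Prime → l ∣ p - 1 → l ^ E ≤ p → ∃ j, 1 ≤ j ∧ j ≤ Y ∧ isRes p l j = false) :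
    (∀ t, Inv p E Y ((stp E)^[t] (ini p))) ∧
    ∃ t, t ≤ K + p.size + Y ∧ Halt E ((stp E)^[t] (ini p)) := by
  classical
  have key : ∀ t, (∀ u < t, ¬ Halt E ((stp E)^[u] (ini p))) →
      Inv p E Y ((stp E)^[t] (ini p)) ∧
        ((stp E)^[t] (ini p)).2.1 + ((stp E)^[t] (ini p)).2.2.2.1.length +
          ((stp E)^[t] (ini p)).2.2.2.2.1 = t + 3 := by
    intro t
    induction t with
    | zero => intro _; exact ⟨inv_ini hp3, rfl⟩
    | succ t ih =>
      intro h
      obtain ⟨h1, h2⟩ := ih fun u hu => h u (by omega)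
      rw [Function.iterate_succ_apply']
      obtain ⟨h3, h4⟩ := inv_step hY h1 (h t (by omega))
      exact ⟨h3, by rw [h4, h2]⟩
  have hex : ∃ t, t ≤ K + p.size + Y ∧ Halt E ((stp E)^[t] (ini p)) := by
    by_contra hcon
    push Not at hcon
    obtain ⟨h1, h2⟩ := key (K + p.size + Y) fun u hu => hcon u hu.le
    have h3 := hK _ h1.hkE
    have h4 := length_le_of_prod (fun l hl => (h1.hprime l hl).1) _ h1.hR h1.hprod hp.one_lt.le
    have h5 := h1.hiY
    omega
  refine ⟨fun t => ?_, hex⟩
  by_cases h : ∀ u < t, ¬ Halt E ((stp E)^[u] (ini p))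
  · exact (key t h).1
  · push Not at h
    obtain ⟨u, hu, hu2⟩ := h
    have hmin : ∃ u, Halt E ((stp E)^[u] (ini p)) := ⟨u, hu2⟩
    have h1 := Nat.find_spec hmin
    have h2 := key (Nat.find hmin) fun v hv => Nat.find_min hmin hv
    rw [iter_halt h1 ((Nat.find_min' hmin hu2).trans hu.le)]
    exact h2.1

/-- the nonresidues found -/
theorem halt_has {p E Y : ℕ} {x : St} [Fact p.Prime] (hYp : Y < p) (hx : Inv p E Y x)
    (hh : Halt E x) {l : ℕ} (hl : l.Prime) (hd : l ∣ p - 1) (hlE : l ^ E ≤ p) :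
    HasNonresidue p l x.2.2.2.2.2 := by
  have hpp : p.Prime := Fact.out
  obtain ⟨h1, h2⟩ := hh
  rw [hx.hp] at h1 h2
  have hlL : l ∈ x.2.2.2.1 := by
    rw [← hx.hprod] at hd
    rcases (Nat.Prime.dvd_mul hl).1 hd with h | h
    · exfalso
      have h3 := hx.hrough l hl h
      have h4 : x.2.1 ^ E ≤ l ^ E := Nat.pow_le_pow_left h3 E
      omega
    · obtain ⟨a, ha, hla⟩ := (Prime.dvd_prod_iff hl.prime).1 h
      have := (Nat.prime_dvd_prime_iff_eq hl (hx.hprime a ha).1).1 hla
      rw [this]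
      exact ha
  have h3 : ¬ (x.2.2.2.2.2.all fun s => isRes p l s) = true := by
    intro h3
    have : l ∈ unres p x.2.2.2.1 x.2.2.2.2.2 := List.mem_filter.2 ⟨hlL, h3⟩
    rw [h2] at this
    exact absurd this List.not_mem_nil
  rw [List.all_eq_true] at h3
  push Not at h3
  obtain ⟨s, hs, hs2⟩ := h3
  refine ⟨s, hs, ?_, ?_⟩
  · intro h0
    rw [ZMod.natCast_eq_zero_iff] at h0
    have h4 := hx.hS s hs
    have h5 := Nat.le_of_dvd (by omega) h0
    have h6 := hx.hiY
    omega
  · intro h0
    apply hs2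
    unfold isRes
    rw [decide_eq_true_iff, pw_eq]
    have h4 : ((s ^ ((p - 1) / l) : ℕ) : ZMod p) = ((1 : ℕ) : ZMod p) := by
      push_cast
      exact h0
    rw [ZMod.natCast_eq_natCast_iff] at h4
    apply md_congr
    have : max p 1 = p := max_eq_left hpp.one_lt.le
    rw [this]
    exact h4

end Pool.Agent.NH20.BT
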