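import Pool.Agent.H471R4.BW.SMO
import Pool.Agent.H38R2.CG.PV

/-!
# Linnik's theorem: boundedly many exceptional primes in `(x, x ^ 2]`
-/

set_option autoImplicit false

namespace Pool.Agent.NH20.BT

open Finset Filter

/-- the character `χ ψ̄` -/
noncomputable def cp {q r : ℕ} (χ : DirichletCharacter ℂ q) (ψ : DirichletCharacter ℂ r) :
    DirichletCharacter ℂ (q * r) :=
  DirichletCharacter.changeLevel (dvd_mul_right q r) χ *
    (DirichletCharacter.changeLevel (dvd_mul_left r q) ψ)⁻¹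

theorem cl_apply {q m : ℕ} [NeZero m] (hqm : q ∣ m) (χ : DirichletCharacter ℂ q) (n : ℕ)
    (hn : n.Coprime m) : (DirichletCharacter.changeLevel hqm χ) (n : ZMod m) = χ (n : ZMod q) := by
  have h2 : IsUnit ((n : ZMod m)) := (ZMod.isUnit_iff_coprime n m).2 hn
  have h3 := DirichletCharacter.changeLevel_eq_cast_of_dvd χ hqm h2.unit
  rw [IsUnit.unit_spec] at h3
  rw [h3]
  congr 1
  exact ZMod.cast_natCast hqm n

theorem cp_apply {q r : ℕ} [NeZero q] [NeZero r] (χ : DirichletCharacter ℂ q)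
    (ψ : DirichletCharacter ℂ r) (n : ℕ) :
    cp χ ψ (n : ZMod (q * r)) = χ (n : ZMod q) * (starRingEnd ℂ) (ψ (n : ZMod r)) := by
  have : NeZero (q * r) := ⟨mul_ne_zero (NeZero.ne q) (NeZero.ne r)⟩
  unfold cp
  rw [MulChar.mul_apply, ← MulChar.star_apply']
  by_cases h : n.Coprime (q * r)
  · rw [cl_apply _ _ _ h, cl_apply _ _ _ h]
    rfl
  · have h1 : ¬ IsUnit ((n : ZMod (q * r))) := fun h2 => h ((ZMod.isUnit_iff_coprime _ _).1 h2)
    rw [MulChar.map_nonunit _ h1, zero_mul]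
    rw [Nat.coprime_mul_iff_right, not_and_or] at h
    rcases h with h | h
    · have h2 : ¬ IsUnit ((n : ZMod q)) := fun h3 => h ((ZMod.isUnit_iff_coprime _ _).1 h3)
      rw [MulChar.map_nonunit _ h2, zero_mul]
    · have h2 : ¬ IsUnit ((n : ZMod r)) := fun h3 => h ((ZMod.isUnit_iff_coprime _ _).1 h3)
      rw [MulChar.map_nonunit _ h2, map_zero, mul_zero]

theorem cp_ne_one {q r : ℕ} [NeZero q] [NeZero r] (hqr : q.Coprime r) (χ : DirichletCharacter ℂ q)
    (ψ : DirichletCharacter ℂ r) (hχ : χ ≠ 1) : cp χ ψ ≠ 1 := by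
  intro h
  apply hχ
  have : NeZero (q * r) := ⟨mul_ne_zero (NeZero.ne q) (NeZero.ne r)⟩
  ext u
  rw [MulChar.one_apply_coe]
  obtain ⟨n, hn1, hn2⟩ := Nat.chineseRemainder hqr (u : ZMod q).val 1
  have e1 : ((n : ℕ) : ZMod q) = (u : ZMod q) := by
    rw [← ZMod.natCast_zmod_val (u : ZMod q)]
    exact (ZMod.natCast_eq_natCast_iff _ _ _).2 hn1
  have e2 : ((n : ℕ) : ZMod r) = 1 := by
    have := (ZMod.natCast_eq_natCast_iff n 1 r).2 hn2
    rwa [Nat.cast_one] at this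
  have hcop : n.Coprime (q * r) := by
    rw [Nat.coprime_mul_iff_right]
    constructor
    · rw [← ZMod.isUnit_iff_coprime, e1]
      exact u.isUnit
    · rw [← ZMod.isUnit_iff_coprime, e2]
      exact isUnit_one
  have h1 := cp_apply χ ψ n
  rw [h, MulChar.one_apply ((ZMod.isUnit_iff_coprime _ _).2 hcop), e1, e2, map_one, map_one,
    mul_one] at h1
  exact h1.symm

theorem cross_le {q r : ℕ} (hq : q.Prime) (hr : r.Prime) (hne : q ≠ r) (χ : DirichletCharacter ℂ q)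
    (ψ : DirichletCharacter ℂ r) (hχ : χ ≠ 1) (D : ℕ) :
    ‖∑ n ∈ Icc 1 D, χ (n : ZMod q) * (starRingEnd ℂ) (ψ (n : ZMod r))‖ ≤
      4 * √(((q * r : ℕ) : ℝ)) * (1 + Real.log ((q * r : ℕ) : ℝ)) := by
  have : NeZero q := ⟨hq.ne_zero⟩
  have : NeZero r := ⟨hr.ne_zero⟩
  have h := Pool.Agent.H38R2.CG.PVh.sum_le (q * r) (cp χ ψ)
    (by have := hq.two_le; have := hr.one_lt; nlinarith)
    (cp_ne_one ((Nat.coprime_primes hq hr).2 hne) χ ψ hχ) D
  have e : ∑ n ∈ Icc 1 D, χ (n : ZMod q) * (starRingEnd ℂ) (ψ (n : ZMod r)) =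
      ∑ n ∈ Icc 1 D, cp χ ψ (n : ZMod (q * r)) := sum_congr rfl fun n _ => (cp_apply χ ψ n).symm
  rw [e]
  exact h

/-- the values at smooth numbers -/
theorem chi_smooth {q : ℕ} (χ : DirichletCharacter ℂ q) (s : ℕ) (hs : 1 ≤ s)
    (h : ∀ l : ℕ, l.Prime → l ∣ s → χ (l : ZMod q) = 1) : χ (s : ZMod q) = 1 := by
  induction s using Nat.recOnMul with
  | zero => omega
  | one => simp
  | prime p hp => exact h p hp dvd_rfl
  | mul a b iha ihb =>
    have ha : 1 ≤ a := Nat.pos_of_ne_zero (by rintro rfl; simp at hs)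
    have hb : 1 ≤ b := Nat.pos_of_ne_zero (by rintro rfl; simp at hs)
    push_cast
    rw [map_mul, iha ha fun l hl hd => h l hl (hd.mul_right _),
      ihb hb fun l hl hd => h l hl (hd.mul_left _), one_mul]

/-- **Linnik**: boundedly many exceptional primes in `(x, x ^ 2]`. -/
theorem rare (δ : ℝ) (hδ : 0 < δ) : ∃ K : ℕ, ∀ (x : ℕ) (E : Finset ℕ),
    (∀ q ∈ E, q.Prime ∧ x < q ∧ q ≤ x ^ 2 ∧ ∃ χ : DirichletCharacter ℂ q, χ ≠ 1 ∧
      ∀ l : ℕ, l.Prime → (l : ℝ) ≤ (q : ℝ) ^ δ → χ (l : ZMod q) = 1) → E.card ≤ K := by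
  classical
  set κ : ℝ := min (δ / 5) 1 with hκ
  have hκ0 : 0 < κ := lt_min (by positivity) one_pos
  have hκδ : κ ≤ δ / 5 := min_le_left _ _
  obtain ⟨c, hc, D0, hS⟩ := Pool.Agent.H471R4.BW.smo κ hκ0 (min_le_right _ _)
  -- eventual inequalities
  have hev : ∀ᶠ x : ℝ in atTop, 1 ≤ x ∧ (D0 : ℝ) ≤ x ∧
      4 * x ^ 2 * (1 + 4 * Real.log x) ≤ c / 2 * x ^ 4 := by
    have h1 := (isLittleO_log_rpow_atTop (show (0 : ℝ) < 1 by norm_num)).bound
      (show (0 : ℝ) < 1 by norm_num)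
    filter_upwards [h1, eventually_ge_atTop 1, eventually_ge_atTop (D0 : ℝ),
      eventually_ge_atTop (40 / c)] with x h1 h2 h3 h4
    refine ⟨h2, h3, ?_⟩
    rw [Real.norm_of_nonneg (Real.log_nonneg h2), Real.norm_of_nonneg (by positivity),
      Real.rpow_one, one_mul] at h1
    rw [div_le_iff₀ hc] at h4
    have h5 : 1 + 4 * Real.log x ≤ 5 * x := by linarith
    calc 4 * x ^ 2 * (1 + 4 * Real.log x) ≤ 4 * x ^ 2 * (5 * x) := by gcongr
      _ = 40 * (x ^ 3 / 2) := by ring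
      _ ≤ (x * c) * (x ^ 3 / 2) := by gcongr
      _ = c / 2 * x ^ 4 := by ring
  have tc : Tendsto (fun q : ℕ => (q : ℝ)) atTop atTop := tendsto_natCast_atTop_atTop
  obtain ⟨x0, hx0⟩ := eventually_atTop.1 (tc.eventually hev)
  obtain ⟨K1, hK1⟩ := exists_nat_ge (2 / c)
  refine ⟨max K1 (x0 ^ 2 + 1), fun x E hE => ?_⟩
  rcases lt_or_ge x x0 with hx | hx
  · -- trivial bound
    refine le_trans ?_ (le_max_right _ _)
    have h1 : E ⊆ range (x0 ^ 2 + 1) := by
      intro q hq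
      have h2 := (hE q hq).2.2.1
      have h3 : x ^ 2 ≤ x0 ^ 2 := Nat.pow_le_pow_left hx.le 2
      rw [mem_range]
      omega
    have := card_le_card h1
    rwa [card_range] at this
  refine le_trans ?_ (le_max_left _ _)
  obtain ⟨h1, h2, h3⟩ := hx0 x hx
  have hx1 : 1 ≤ x := by exact_mod_cast h1
  have hxr : (0 : ℝ) < x := by linarith
  choose! χ hχ1 hχ using fun q hq => (hE q hq).2.2.2
  set D : ℕ := x ^ 4 with hD
  have hDr : (D : ℝ) = (x : ℝ) ^ 4 := by rw [hD]; push_cast; ring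
  have hD0 : D0 ≤ D := by
    have h4 : D0 ≤ x := by exact_mod_cast h2
    calc D0 ≤ x := h4
      _ ≤ x ^ 4 := Nat.le_self_pow (by norm_num) _
  obtain ⟨S, hS1, hS2⟩ := hS D hD0
  have hDκ : (D : ℝ) ^ κ ≤ (x : ℝ) ^ δ := by
    rw [hDr, ← Real.rpow_natCast, ← Real.rpow_mul hxr.le]
    apply Real.rpow_le_rpow_of_exponent_le h1
    push_cast
    linarith
  have hval : ∀ q ∈ E, ∀ s ∈ S, χ q (s : ZMod q) = 1 := by
    intro q hq s hs
    obtain ⟨g1, g2, g3⟩ := hS1 s hs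
    refine chi_smooth _ s g1 fun l hl hd => hχ q hq l hl ?_
    refine (g3 l hl hd).trans (hDκ.trans ?_)
    apply Real.rpow_le_rpow hxr.le _ hδ.le
    exact_mod_cast (hE q hq).2.1.le
  -- the two sides
  set e : ℝ := (E.card : ℝ) with he
  set M : ℝ := (S.card : ℝ) with hM
  set a : ℕ → ℂ := fun n => ∑ q ∈ E, χ q (n : ZMod q) with ha
  have hSD : S ⊆ Icc 1 D := by
    intro s hs
    obtain ⟨g1, g2, g3⟩ := hS1 s hs
    rw [mem_Icc]
    omega
  have hL : e ^ 2 * M ≤ ∑ n ∈ Icc 1 D, ‖a n‖ ^ 2 := by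
    calc e ^ 2 * M = ∑ _s ∈ S, e ^ 2 := by rw [sum_const, nsmul_eq_mul, mul_comm]
      _ = ∑ s ∈ S, ‖a s‖ ^ 2 := by
          refine sum_congr rfl fun s hs => ?_
          have : a s = (E.card : ℂ) := by
            rw [ha]
            simp only
            rw [sum_congr rfl fun q hq => hval q hq s hs]
            simp
          rw [this]
          simp [he]
      _ ≤ ∑ n ∈ Icc 1 D, ‖a n‖ ^ 2 :=
          sum_le_sum_of_subset_of_nonneg hSD fun _ _ _ => by positivity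
  have hU : ∑ n ∈ Icc 1 D, ‖a n‖ ^ 2 ≤ e * D + e ^ 2 * (c / 2 * (x : ℝ) ^ 4) := by
    have h4 : ((∑ n ∈ Icc 1 D, ‖a n‖ ^ 2 : ℝ) : ℂ) = ∑ q ∈ E, ∑ r ∈ E, ∑ n ∈ Icc 1 D,
        χ q (n : ZMod q) * (starRingEnd ℂ) (χ r (n : ZMod r)) := by
      push_cast
      have h5 : ∀ n : ℕ, ((‖a n‖ : ℝ) : ℂ) ^ 2 = ∑ q ∈ E, ∑ r ∈ E,
          χ q (n : ZMod q) * (starRingEnd ℂ) (χ r (n : ZMod r)) := by
        intro n
        rw [← Complex.mul_conj', ha]
        simp only
        rw [map_sum, sum_mul_sum]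
      rw [sum_congr rfl fun n _ => h5 n, sum_comm]
      refine sum_congr rfl fun q _ => ?_
      rw [sum_comm]
    have h6 : ‖((∑ n ∈ Icc 1 D, ‖a n‖ ^ 2 : ℝ) : ℂ)‖ = ∑ n ∈ Icc 1 D, ‖a n‖ ^ 2 := by
      rw [Complex.norm_real, Real.norm_of_nonneg (sum_nonneg fun _ _ => by positivity)]
    rw [← h6, h4]
    have hpair : ∀ q ∈ E, ∀ r ∈ E, ‖∑ n ∈ Icc 1 D,
        χ q (n : ZMod q) * (starRingEnd ℂ) (χ r (n : ZMod r))‖ ≤
        (if q = r then (D : ℝ) else 0) + c / 2 * (x : ℝ) ^ 4 := by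
      intro q hq r hr
      have hpos : 0 ≤ c / 2 * (x : ℝ) ^ 4 := by positivity
      by_cases hqr : q = r
      · rw [if_pos hqr]
        have : ‖∑ n ∈ Icc 1 D, χ q (n : ZMod q) * (starRingEnd ℂ) (χ r (n : ZMod r))‖ ≤ D := by
          refine (norm_sum_le _ _).trans ?_
          calc ∑ n ∈ Icc 1 D, ‖χ q (n : ZMod q) * (starRingEnd ℂ) (χ r (n : ZMod r))‖
              ≤ ∑ _n ∈ Icc 1 D, (1 : ℝ) := by
                refine sum_le_sum fun n _ => ?_
                rw [norm_mul, RCLike.norm_conj]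
                exact mul_le_one₀ (DirichletCharacter.norm_le_one _ _) (norm_nonneg _)
                  (DirichletCharacter.norm_le_one _ _)
            _ = D := by simp
        linarith
      · rw [if_neg hqr, zero_add]
        refine (cross_le (hE q hq).1 (hE r hr).1 hqr _ _ (hχ1 q hq) D).trans ?_
        refine le_trans ?_ h3
        have hq2 := (hE q hq).2.2.1
        have hr2 := (hE r hr).2.2.1
        have h7 : ((q * r : ℕ) : ℝ) ≤ (x : ℝ) ^ 4 := by
          have : q * r ≤ x ^ 4 := by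
            calc q * r ≤ x ^ 2 * x ^ 2 := Nat.mul_le_mul hq2 hr2
              _ = x ^ 4 := by ring
          exact_mod_cast this
        have hqrpos : (0 : ℝ) < ((q * r : ℕ) : ℝ) := by
          exact_mod_cast Nat.mul_pos (hE q hq).1.pos (hE r hr).1.pos
        have h8 : √((q * r : ℕ) : ℝ) ≤ (x : ℝ) ^ 2 := by
          rw [Real.sqrt_le_left (by positivity)]
          calc ((q * r : ℕ) : ℝ) ≤ (x : ℝ) ^ 4 := h7
            _ = ((x : ℝ) ^ 2) ^ 2 := by ring
        have h9 : Real.log ((q * r : ℕ) : ℝ) ≤ 4 * Real.log x := by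
          have := Real.log_le_log hqrpos h7
          rw [Real.log_pow] at this
          push_cast at this ⊢
          exact this
        have h10 : 0 ≤ Real.log ((q * r : ℕ) : ℝ) := by
          apply Real.log_nonneg
          exact_mod_cast Nat.mul_pos (hE q hq).1.pos (hE r hr).1.pos
        gcongr
    calc ‖∑ q ∈ E, ∑ r ∈ E, ∑ n ∈ Icc 1 D,
          χ q (n : ZMod q) * (starRingEnd ℂ) (χ r (n : ZMod r))‖
        ≤ ∑ q ∈ E, ∑ r ∈ E, ((if q = r then (D : ℝ) else 0) + c / 2 * (x : ℝ) ^ 4) := by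
          refine (norm_sum_le _ _).trans (sum_le_sum fun q hq => ?_)
          exact (norm_sum_le _ _).trans (sum_le_sum fun r hr => hpair q hq r hr)
      _ = e * D + e ^ 2 * (c / 2 * (x : ℝ) ^ 4) := by
          have h7 : ∀ q ∈ E, ∑ r ∈ E, ((if q = r then (D : ℝ) else 0) + c / 2 * (x : ℝ) ^ 4) =
              D + e * (c / 2 * (x : ℝ) ^ 4) := by
            intro q hq
            rw [sum_add_distrib, sum_ite_eq, if_pos hq, sum_const, nsmul_eq_mul]
          rw [sum_congr rfl h7, sum_const, nsmul_eq_mul]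
          ring
  -- conclusion
  have hfin : e ^ 2 * (c * D) ≤ e * D + e ^ 2 * (c / 2 * D) := by
    calc e ^ 2 * (c * D) ≤ e ^ 2 * M := mul_le_mul_of_nonneg_left hS2 (by positivity)
      _ ≤ _ := hL
      _ ≤ _ := hU
      _ = _ := by rw [hDr]
  have hDpos : (0 : ℝ) < D := by rw [hDr]; positivity
  have he0 : 0 ≤ e := Nat.cast_nonneg _
  have hfin2 : e ^ 2 * (c / 2) ≤ e := by
    have h5 : (e ^ 2 * (c / 2)) * D ≤ e * D := by linarith
    exact le_of_mul_le_mul_right h5 hDpos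
  have hfin3 : e ≤ 2 / c := by
    rcases he0.eq_or_lt with h0 | h0
    · rw [← h0]; positivity
    · rw [le_div_iff₀ hc]
      have : e * (e * (c / 2)) ≤ e * 1 := by linarith
      have := le_of_mul_le_mul_left this h0
      linarith
  have : (E.card : ℝ) ≤ K1 := hfin3.trans hK1
  exact_mod_cast this

end Pool.Agent.NH20.BT
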