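import Pool.Agent.NH20.BT.Fin
import Pool.Agent.NH20.BT.Lin

/-!
# The search with a clock, and the algorithm in time `p ^ δ` with boundedly many exceptional primes
-/

set_option autoImplicit false

namespace Pool.Agent.NH20.BT

open Finset Filter Pool.Agent.NPC Pool.Agent.H595R2.PR Pool.Agent.R562.PR Pool.Agent.NPC.NH20POL

/-- the round with a clock -/
def clk (E E' : ℕ) (s : ℕ × St) : ℕ × St :=
  if s.1 ^ E' ≤ s.2.1 then (s.1 + 1, stp E s.2) else s

theorem poly_clk (E E' : ℕ) : NPC.Poly (clk E E') := by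
  have h1 : NPC.Poly (fun s : ℕ × St => s.1) := NPC.Poly.fst NPC.Poly.id
  have h2 : NPC.Poly (fun s : ℕ × St => s.2) := NPC.Poly.snd NPC.Poly.id
  have h3 : NPC.Poly (fun s : ℕ × St => s.2.1) := NPC.Poly.fst h2
  exact NPC.Poly.ite (p := fun s : ℕ × St => s.1 ^ E' ≤ s.2.1)
    (NPC.Poly.decide_le (poly_powC h1 E') h3)
    (NPC.Poly.pair (NPC.Poly.succ h1) ((poly_stp E).comp h2)) NPC.Poly.id

/-- raw initial state -/
def cini (x : List Bool) : List Bool := bits ((0, ini (valB x)) : ℕ × St)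

/-- raw round -/
def crnd (E E' : ℕ) (x : List Bool) : List Bool :=
  bits ((unbits (ℕ × St) x).elim (0, ini 0) (clk E E'))

/-- raw output -/
def cout (A C : ℕ) (x : List Bool) : List Bool :=
  bits ((unbits (ℕ × St) x).elim [] (fun s => fin A C s.2))

theorem polyTime_cini : NPC.PolyTime cini :=
  polyTime_bits (NPC.Poly.pair (NPC.Poly.const 0) (poly_ini.comp (NPC.Poly.valBits NPC.Poly.id)))

theorem polyTime_crnd (E E' : ℕ) : NPC.PolyTime (crnd E E') := by
  refine polyTime_bits ?_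
  have h := NPC.Poly.optCases (o := fun x : List Bool => unbits (ℕ × St) x)
    (g := fun _ => ((0, ini 0) : ℕ × St))
    (h := fun _ s => clk E E' s) poly_unbits (NPC.Poly.const _)
    ((poly_clk E E').comp (NPC.Poly.snd NPC.Poly.id))
  refine h.congr fun x => ?_
  cases unbits (ℕ × St) x <;> rfl

theorem polyTime_cout (A C : ℕ) : NPC.PolyTime (cout A C) := by
  refine polyTime_bits ?_
  have h := NPC.Poly.optCases (o := fun x : List Bool => unbits (ℕ × St) x)
    (g := fun _ => ([] : List ℕ))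
    (h := fun _ s => fin A C s.2) poly_unbits (NPC.Poly.const _)
    ((poly_fin A C).comp (NPC.Poly.snd (NPC.Poly.snd NPC.Poly.id)))
  refine h.congr fun x => ?_
  cases unbits (ℕ × St) x <;> rfl

theorem citer (E E' p t : ℕ) :
    (crnd E E')^[t] (cini (Nat.bits p)) = bits ((clk E E')^[t] ((0, ini p) : ℕ × St)) := by
  induction t with
  | zero =>
    show cini (Nat.bits p) = _
    unfold cini
    rw [valB_bits]
    rfl
  | succ t ih =>
    rw [Function.iterate_succ_apply', ih, Function.iterate_succ_apply']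
    unfold crnd
    rw [unbits_bits]
    rfl

/-- before the clock stops -/
theorem clk_iter {E E' p T : ℕ} (hT : ∀ c, c < T → c ^ E' ≤ p) (t : ℕ) (ht : t ≤ T) :
    (clk E E')^[t] ((0, ini p) : ℕ × St) = (t, (stp E)^[t] (ini p)) := by
  induction t with
  | zero => rfl
  | succ t ih =>
    rw [Function.iterate_succ_apply', ih (by omega), Function.iterate_succ_apply']
    unfold clk
    rw [if_pos]
    show t ^ E' ≤ ((stp E)^[t] (ini p)).1
    rw [iter_fst]
    exact hT t (by omega)

/-- after the clock has stopped -/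
theorem clk_stop {E E' p T : ℕ} (hT2 : p < T ^ E') :
    clk E E' (T, (stp E)^[T] (ini p)) = (T, (stp E)^[T] (ini p)) := by
  unfold clk
  rw [if_neg]
  show ¬ T ^ E' ≤ ((stp E)^[T] (ini p)).1
  rw [iter_fst]
  omega

theorem clk_after {E E' p T : ℕ} (hT : ∀ c, c < T → c ^ E' ≤ p) (hT2 : p < T ^ E') (t : ℕ)
    (ht : T ≤ t) : (clk E E')^[t] ((0, ini p) : ℕ × St) = (T, (stp E)^[T] (ini p)) := by
  induction t, ht using Nat.le_induction with
  | base => exact clk_iter hT T le_rfl
  | succ t _ ih => rw [Function.iterate_succ_apply', ih, clk_stop hT2]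

/-- a nonresidue below `p` -/
theorem nonres_of_char {p l : ℕ} [Fact p.Prime] (hl : l.Prime) (hd : l ∣ p - 1)
    (χ : DirichletCharacter ℂ p) (hχl : χ ^ l = 1) (j : ℕ) (hj : (j : ZMod p) ≠ 0)
    (hχj : χ (j : ZMod p) ≠ 1) : isRes p l j = false := by
  by_contra hcon
  have h3 : isRes p l j = true := by
    cases h : isRes p l j
    · exact absurd h hcon
    · rfl
  have hpp : p.Prime := Fact.out
  unfold isRes at h3
  rw [decide_eq_true_iff, pw_eq] at h3
  have h4 : ((j ^ ((p - 1) / l) : ℕ) : ZMod p) = ((1 : ℕ) : ZMod p) := by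
    rw [ZMod.natCast_eq_natCast_iff]
    have hmax : max p 1 = p := max_eq_left hpp.one_lt.le
    unfold md at h3
    rw [hmax] at h3
    exact h3
  set u : (ZMod p)ˣ := Units.mk0 _ hj with hu
  have hcard : Nat.card (ZMod p)ˣ = p - 1 := by
    rw [Nat.card_eq_fintype_card, ZMod.card_units]
  have h5 : u ^ (Nat.card (ZMod p)ˣ / l) = 1 := by
    rw [hcard]
    apply Units.ext
    rw [Units.val_pow_eq_pow_val, hu, Units.val_mk0, Units.val_one]
    push_cast at h4
    exact h4
  obtain ⟨v, hv⟩ := is_pow hl.pos (by rw [hcard]; exact hd) h5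
  apply hχj
  have h6 : ((j : ℕ) : ZMod p) = ((v ^ l : (ZMod p)ˣ) : ZMod p) := by
    rw [hv, hu, Units.val_mk0]
  rw [h6, Units.val_pow_eq_pow_val, map_pow, ← MulChar.pow_apply_coe, hχl]
  simp

theorem exists_nonres {p l : ℕ} [Fact p.Prime] (hl : l.Prime) (hd : l ∣ p - 1) :
    ∃ j, 1 ≤ j ∧ j ≤ p - 1 ∧ isRes p l j = false := by
  have hpp : p.Prime := Fact.out
  obtain ⟨χ, h1, h2⟩ := exists_char (p := p) hl hd
  obtain ⟨u, hu⟩ : ∃ u : (ZMod p)ˣ, χ u ≠ 1 := by
    by_contra hcon
    push Not at hcon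
    apply h1
    ext u
    rw [MulChar.one_apply_coe]
    exact hcon u
  have e : (((u : ZMod p).val : ℕ) : ZMod p) = (u : ZMod p) := ZMod.natCast_zmod_val _
  refine ⟨(u : ZMod p).val, ?_, ?_, ?_⟩
  · rw [Nat.one_le_iff_ne_zero]
    intro h0
    rw [ZMod.val_eq_zero] at h0
    exact u.ne_zero h0
  · have := ZMod.val_lt (u : ZMod p)
    omega
  · apply nonres_of_char hl hd χ h2
    · rw [e]; exact u.ne_zero
    · rw [e]; exact hu

theorem size_le_log {p : ℕ} (hp : 1 ≤ p) : (p.size : ℝ) ≤ 2 + 2 * Real.log p := by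
  have h4 : 2 ^ (p.size - 1) ≤ p := by
    apply Nat.lt_size.1
    have : 0 < p.size := Nat.size_pos.2 hp
    omega
  have h5 : ((2 : ℝ)) ^ (p.size - 1) ≤ p := by exact_mod_cast h4
  have h6 := Real.log_le_log (by positivity) h5
  rw [Real.log_pow] at h6
  have h7 : ((p.size - 1 : ℕ) : ℝ) = (p.size : ℝ) - 1 := by
    rw [Nat.cast_sub (Nat.size_pos.2 hp), Nat.cast_one]
  rw [h7] at h6
  have h8 := Real.log_two_gt_d9
  have h9 : (1 : ℝ) ≤ p.size := by exact_mod_cast (Nat.size_pos.2 hp)
  nlinarith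

theorem root_le {k p E : ℕ} (hE : 1 ≤ E) (h : k ^ E ≤ p) : (k : ℝ) ≤ (p : ℝ) ^ (1 / E : ℝ) := by
  have hE0 : (0 : ℝ) < E := by exact_mod_cast hE
  have h2 : ((k : ℝ)) ^ E ≤ p := by exact_mod_cast h
  calc (k : ℝ) = (((k : ℝ)) ^ E) ^ (1 / E : ℝ) := by
        rw [← Real.rpow_natCast, ← Real.rpow_mul (Nat.cast_nonneg _), mul_one_div,
          div_self hE0.ne', Real.rpow_one]
    _ ≤ (p : ℝ) ^ (1 / E : ℝ) := Real.rpow_le_rpow (by positivity) h2 (by positivity)

theorem root_lt {k p E : ℕ} (hE : 1 ≤ E) (h : p < k ^ E) : (p : ℝ) ^ (1 / E : ℝ) < k := by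
  have hE0 : (0 : ℝ) < E := by exact_mod_cast hE
  have h2 : (p : ℝ) < ((k : ℝ)) ^ E := by exact_mod_cast h
  calc (p : ℝ) ^ (1 / E : ℝ) < (((k : ℝ)) ^ E) ^ (1 / E : ℝ) :=
        Real.rpow_lt_rpow (Nat.cast_nonneg _) h2 (by positivity)
    _ = k := by
        rw [← Real.rpow_natCast, ← Real.rpow_mul (Nat.cast_nonneg _), mul_one_div,
          div_self hE0.ne', Real.rpow_one]

open Classical in
/-- **Main theorem, with exceptions**: time `p ^ δ`, boundedly many exceptional primes in
`(x, x ^ 2]`. -/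
theorem main_exc (δ : ℝ) (hδ : 0 < δ) (B : ℕ) : ∃ (C : ℕ) (F : ℕ → List ℕ),
    ComputedIn (fun p => (p : ℝ) ^ δ) F ∧ (∀ p : ℕ, (F p).length = p.size ^ C) ∧
    ∃ K : ℕ, ∀ x : ℕ, #{p ∈ Ioc x (x ^ 2) | p.Prime ∧
      ¬ p.size ^ B * #{i ∈ range (F p).length | ¬ IsPrimRoot p ((F p).getD i 0)} ≤
        (F p).length} ≤ K := by
  -- parameters
  obtain ⟨m, hm⟩ := exists_nat_gt (1 / δ)
  set E' : ℕ := m + 2 with hE'
  set E : ℕ := 2 * E' with hE
  have hE'0 : (0 : ℝ) < E' := by rw [hE']; positivity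
  have hE'δ : 1 / (E' : ℝ) < δ := by
    rw [div_lt_iff₀ hδ] at hm
    rw [div_lt_iff₀ hE'0, hE']
    push_cast
    nlinarith
  have hE0 : (0 : ℝ) < E := by rw [hE]; positivity
  have hEE : (E : ℝ) = 2 * E' := by rw [hE]; push_cast; ring
  have hinv : 1 / (E : ℝ) < 1 / (E' : ℝ) := by
    apply one_div_lt_one_div_of_lt hE'0
    linarith
  have hinv2 : 1 / (E' : ℝ) ≤ 1 / 2 := by
    apply one_div_le_one_div_of_le (by norm_num)
    rw [hE']
    push_cast
    linarith [Nat.cast_nonneg (α := ℝ) m]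
  obtain ⟨A₂, hA₂⟩ := Gam_large (1 / E) (by positivity)
  obtain ⟨p₂, hp₂⟩ := hA₂ A₂ le_rfl
  set C := 1 + A₂ + B + 2 with hC
  obtain ⟨K1, hK1⟩ := rare (1 / E) (by positivity)
  -- eventual inequalities
  have hev : ∀ᶠ x : ℝ in atTop, x ^ (1 / E' : ℝ) + 2 ≤ x ^ δ ∧ x ^ (1 / E' : ℝ) + 2 ≤ x ∧
      (x ^ (1 / E : ℝ) + 1) + (2 + 2 * Real.log x) + (x ^ (1 / E : ℝ) + 1) ≤
        x ^ (1 / E' : ℝ) ∧ 2 * (x ^ (1 / E : ℝ) + 1) < x := by
    have hc1 : (0 : ℝ) < 1 / E := by positivity
    have g1 := ev_pow (1 / E') δ (1 / 2) hE'δ (by norm_num)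
    have g2 := ev_pow (1 / E') 1 (1 / 2) (by linarith) (by norm_num)
    have g3 := ev_pow (1 / E) (1 / E') (1 / 16) hinv (by norm_num)
    have g4 := (isLittleO_log_rpow_atTop (show (0 : ℝ) < 1 / E' by positivity)).bound
      (show (0 : ℝ) < 1 / 16 by norm_num)
    filter_upwards [g1, g2, g3, g4, (tendsto_rpow_atTop hδ).eventually_ge_atTop 4,
      (tendsto_rpow_atTop (show (0 : ℝ) < 1 / E' by positivity)).eventually_ge_atTop 16,
      eventually_ge_atTop 4] with x g1 g2 g3 g4 g5 g6 g7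
    have hx0 : 0 < x := lt_of_lt_of_le (by norm_num) g7
    have hx1 : 1 ≤ x := le_trans (by norm_num) g7
    rw [Real.rpow_one] at g2
    rw [Real.norm_of_nonneg (Real.log_nonneg hx1),
      Real.norm_of_nonneg (by positivity)] at g4
    refine ⟨by linarith, by linarith, by linarith, by linarith⟩
  have tc : Tendsto (fun q : ℕ => (q : ℝ)) atTop atTop := tendsto_natCast_atTop_atTop
  obtain ⟨p₃, hp₃⟩ := eventually_atTop.1 (tc.eventually hev)
  -- the stopping time of the clock
  have hclock : ∀ p : ℕ, ∃ T : ℕ, (∀ c, c < T → c ^ E' ≤ p) ∧ p < T ^ E' := by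
    intro p
    have hex : ∃ T : ℕ, p < T ^ E' := ⟨p + 1, by
      have : p + 1 ≤ (p + 1) ^ E' := Nat.le_self_pow (by omega) _
      omega⟩
    refine ⟨Nat.find hex, fun c hc => ?_, Nat.find_spec hex⟩
    have := Nat.find_min hex hc
    omega
  choose T hT1 hT2 using hclock
  have hTpos : ∀ p, 1 ≤ T p := by
    intro p
    by_contra hcon
    have h0 : T p = 0 := by omega
    have h1 := hT2 p
    rw [h0, zero_pow (by omega)] at h1
    omega
  have hTle : ∀ p : ℕ, (T p : ℝ) ≤ (p : ℝ) ^ (1 / E' : ℝ) + 1 := by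
    intro p
    have h1 := root_le (by omega) (hT1 p (T p - 1) (by have := hTpos p; omega))
    rw [Nat.cast_sub (hTpos p), Nat.cast_one] at h1
    linarith
  have hTge : ∀ p : ℕ, (p : ℝ) ^ (1 / E' : ℝ) < T p := fun p => root_lt (by omega) (hT2 p)
  set F : ℕ → List ℕ := fun p => fin A₂ C ((stp E)^[T p] (ini p)) with hF
  refine ⟨C, F, ?_, fun p => ?_, ?_⟩
  · -- the computation
    refine ⟨cini, crnd E E', cout A₂ C, polyTime_cini, polyTime_crnd E E', polyTime_cout A₂ C,
      10, max p₃ 3, fun p hp hpp => ⟨fun t => ?_, T p, ?_, ?_, ?_⟩⟩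
    · have : Fact p.Prime := ⟨hpp⟩
      have hsz2 := two_le_size hpp
      obtain ⟨hinvs, -⟩ := run (E := E) (Y := p - 1) (K := p + 1) hpp
        ((le_max_right _ _).trans hp) (fun k hk => by
          have h1 : k - 1 ≤ (k - 1) ^ E := Nat.le_self_pow (by omega) _
          omega) (fun l hl hd _ => exists_nonres hl hd)
      have hY : p - 1 < p := by have := hpp.pos; omega
      obtain ⟨f1, f2, f3, f4⟩ := hp₃ p ((le_max_left _ _).trans hp)
      have hTp : T p ≤ p := by
        have : (T p : ℝ) ≤ p := by linarith [hTle p]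
        exact_mod_cast this
      have key : ∀ (c u : ℕ), c ≤ p →
          (bits ((c, (stp E)^[u] (ini p)) : ℕ × St)).length ≤ p.size ^ 10 := by
        intro c u hc
        have h1 := state_size hpp.two_le (by omega) (hinvs u) hY
        rw [bits_length] at h1 ⊢
        rw [NPC.sz_pair]
        have h2 := sz_nat_bound hc
        calc sz c + sz ((stp E)^[u] (ini p)) + 1 ≤ (4 * p.size + 1) + 100 * p.size ^ 2 + 1 := by
              omega
          _ ≤ 2 ^ 8 * p.size ^ 2 := by nlinarith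
          _ ≤ p.size ^ 8 * p.size ^ 2 := Nat.mul_le_mul_right _ (Nat.pow_le_pow_left hsz2 _)
          _ = p.size ^ 10 := by ring
      rw [citer]
      rcases le_total t (T p) with ht | ht
      · rw [clk_iter (hT1 p) t ht]
        exact key t t (ht.trans hTp)
      · rw [clk_after (hT1 p) (hT2 p) t ht]
        exact key _ _ hTp
    · obtain ⟨f1, f2, f3, f4⟩ := hp₃ p ((le_max_left _ _).trans hp)
      have := hTle p
      show (T p : ℝ) ≤ (p : ℝ) ^ δ
      linarith
    · rw [← Function.iterate_succ_apply' (crnd E E'), citer, citer,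
        clk_after (hT1 p) (hT2 p) (T p + 1) (by omega), clk_after (hT1 p) (hT2 p) (T p) le_rfl]
    · rw [citer, clk_after (hT1 p) (hT2 p) (T p) le_rfl]
      unfold cout
      rw [unbits_bits]
      rfl
  · show (candsS _ _ _).length = _
    rw [length_candsS, iter_fst]
  · -- the exceptional primes
    set p₀ := max (max p₂ p₃) 3 with hp₀
    refine ⟨K1 + p₀, fun x => ?_⟩
    set Ex : Finset ℕ := {p ∈ Ioc x (x ^ 2) | p.Prime ∧
      ¬ p.size ^ B * #{i ∈ range (F p).length | ¬ IsPrimRoot p ((F p).getD i 0)} ≤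
        (F p).length} with hEx
    have hsplit : Ex ⊆ range p₀ ∪ Ex.filter (fun p => p₀ ≤ p) := by
      intro p hp
      rw [mem_union, mem_range, mem_filter]
      rcases lt_or_ge p p₀ with h | h
      · exact Or.inl h
      · exact Or.inr ⟨hp, h⟩
    have hmain : (Ex.filter (fun p => p₀ ≤ p)).card ≤ K1 := by
      apply hK1 x
      intro p hp
      rw [mem_filter, hEx, mem_filter, mem_Ioc] at hp
      obtain ⟨⟨⟨hx1, hx2⟩, hpp, hbad⟩, hp0⟩ := hp
      refine ⟨hpp, hx1, hx2, ?_⟩
      by_contra hno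
      apply hbad
      -- all characters have small primes at which they are not one
      have : Fact p.Prime := ⟨hpp⟩
      have hp2 : p₂ ≤ p := le_trans (le_trans (le_max_left _ _) (le_max_left _ _)) hp0
      have hp3 : p₃ ≤ p := le_trans (le_trans (le_max_right _ _) (le_max_left _ _)) hp0
      have hp33 : 3 ≤ p := (le_max_right _ _).trans hp0
      have hpos : (0 : ℝ) < p := by exact_mod_cast hpp.pos
      obtain ⟨f1, f2, f3, f4⟩ := hp₃ p hp3
      set Y : ℕ := ⌊(p : ℝ) ^ (1 / E : ℝ)⌋₊ with hY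
      have hYle : (Y : ℝ) ≤ (p : ℝ) ^ (1 / E : ℝ) := Nat.floor_le (by positivity)
      have hYp : Y < p := by
        have : (Y : ℝ) < p := by
          have : (0 : ℝ) ≤ (p : ℝ) ^ (1 / E : ℝ) := by positivity
          linarith
        exact_mod_cast this
      have hres : ∀ l : ℕ, l.Prime → l ∣ p - 1 → l ^ E ≤ p →
          ∃ j, 1 ≤ j ∧ j ≤ Y ∧ isRes p l j = false := by
        intro l hl hd _
        obtain ⟨χ, hχ1, hχl⟩ := exists_char (p := p) hl hd
        have h5 : ¬ ∀ q : ℕ, q.Prime → (q : ℝ) ≤ (p : ℝ) ^ (1 / E : ℝ) → χ (q : ZMod p) = 1 :=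
          fun h => hno ⟨χ, hχ1, h⟩
        push Not at h5
        obtain ⟨q, hq, hqY, hχq⟩ := h5
        have hqY' : q ≤ Y := Nat.le_floor hqY
        refine ⟨q, hq.pos, hqY', nonres_of_char hl hd χ hχl q ?_ hχq⟩
        intro h0
        rw [ZMod.natCast_eq_zero_iff] at h0
        have := Nat.le_of_dvd hq.pos h0
        omega
      have hKb : ∀ k : ℕ, (k - 1) ^ E ≤ p → k ≤ Y + 1 := by
        intro k hk
        have h1 := root_le (by omega) hk
        have h3 := Nat.le_floor h1
        omega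
      obtain ⟨hinvs, t, ht, hhalt⟩ := run (E := E) (Y := Y) hpp hp33 hKb hres
      have htT : t ≤ T p := by
        have h2 : (t : ℝ) ≤ (Y + 1 : ℕ) + p.size + Y := by exact_mod_cast ht
        push_cast at h2
        have h3 := size_le_log hpp.one_lt.le
        have h4 : (t : ℝ) ≤ T p := by
          have := (hTge p).le
          linarith
        exact_mod_cast h4
      have hsame : (stp E)^[T p] (ini p) = (stp E)^[t] (ini p) := iter_halt hhalt htT
      have hsz2 := two_le_size hpp
      have hx := hinvs t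
      set st := (stp E)^[t] (ini p) with hst
      have hst1 : st.1 = p := hx.hp
      have e : F p = candsS C p (withSmall (p.size ^ A₂) st.2.2.2.2.2) := by
        show fin A₂ C ((stp E)^[T p] (ini p)) = _
        rw [hsame]
        unfold fin
        rw [hst1]
      have hnon : ∀ l : ℕ, l.Prime → l ∣ p - 1 → (l : ℝ) < (p : ℝ) ^ (1 / E : ℝ) →
          HasNonresidue p l st.2.2.2.2.2 := by
        intro l hl hd hlp
        refine halt_has hYp hx hhalt hl hd ?_
        have h1 : (l : ℝ) ^ E ≤ p := by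
          calc (l : ℝ) ^ E ≤ ((p : ℝ) ^ (1 / E : ℝ)) ^ E :=
                pow_le_pow_left₀ (Nat.cast_nonneg _) hlp.le E
            _ = p := by
                rw [← Real.rpow_natCast, ← Real.rpow_mul hpos.le, one_div_mul_cancel hE0.ne',
                  Real.rpow_one]
        exact_mod_cast h1
      have htop := top_of_nonresidues (Y := p.size ^ A₂) (1 / E) (hp₂ p hp2 hpp) hnon
      have hlen : (candsS C p (withSmall (p.size ^ A₂) st.2.2.2.2.2)).length = p.size ^ C :=
        length_candsS _ _ _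
      rw [e]
      simp only [hlen]
      have h1 := coreS C p hpp (withSmall (p.size ^ A₂) st.2.2.2.2.2)
      rw [length_withSmall] at h1
      have hSlen : st.2.2.2.2.2.length ≤ p.size ^ 1 := by
        have h2 := hx.hlen
        have h3 := length_le_of_prod (fun l hl => (hx.hprime l hl).1) _ hx.hR hx.hprod
          hpp.one_lt.le
        rw [pow_one]
        omega
      have h2 := fits (n := p.size) (A := 1) (A' := A₂) (B := B)
        (L := st.2.2.2.2.2.length + p.size ^ A₂) hsz2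
        (Nat.add_le_add_right hSlen _) h1
      refine le_trans (Nat.mul_le_mul_left _ (card_le_card ?_)) h2
      intro i hi
      rw [mem_filter] at hi ⊢
      refine ⟨hi.1, fun hg => hi.2 ?_⟩
      rw [genS_iff, htop] at hg
      exact prim_of_generates hg
    calc Ex.card ≤ (range p₀ ∪ Ex.filter (fun p => p₀ ≤ p)).card := card_le_card hsplit
      _ ≤ p₀ + (Ex.filter (fun p => p₀ ≤ p)).card := by
          refine (card_union_le _ _).trans ?_
          rw [card_range]
      _ ≤ K1 + p₀ := by omega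

end Pool.Agent.NH20.BT
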