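import Pool.Agent.NH20.BT.Clk
import Pool.Agent.Y165.HN.Key

/-!
# Primes in residue classes: time `p ^ δ` without exceptions
-/

set_option autoImplicit false

namespace Pool.Agent.NH20.BT

open Finset Filter Pool.Agent.NPC Pool.Agent.H595R2.PR Pool.Agent.R562.PR Pool.Agent.NPC.NH20POL

/-- the run of the algorithm: invariant and time -/
theorem run' {p E : ℕ} (hp : p.Prime) (hp3 : 3 ≤ p) (t : ℕ) :
    Inv p E (p - 1) ((stp E)^[t] (ini p)) ∧ (Halt E ((stp E)^[t] (ini p)) ∨
      ((stp E)^[t] (ini p)).2.1 + ((stp E)^[t] (ini p)).2.2.2.1.length +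
          ((stp E)^[t] (ini p)).2.2.2.2.1 = t + 3) := by
  have : Fact p.Prime := ⟨hp⟩
  induction t with
  | zero => exact ⟨inv_ini hp3, Or.inr rfl⟩
  | succ t ih =>
    obtain ⟨h1, h2⟩ := ih
    rw [Function.iterate_succ_apply']
    by_cases hh : Halt E ((stp E)^[t] (ini p))
    · rw [stp_halt hh]
      exact ⟨h1, Or.inl hh⟩
    · obtain ⟨h3, h4⟩ := inv_step (fun l hl hd _ => exists_nonres hl hd) h1 hh
      refine ⟨h3, Or.inr ?_⟩
      rcases h2 with h2 | h2
      · exact absurd h2 hh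
      · rw [h4, h2]

/-- the nonresidues found before the clock stops -/
theorem clock_has {p E Y t K : ℕ} (hpp : p.Prime) (hp3 : 3 ≤ p)
    (hK : ∀ k : ℕ, (k - 1) ^ E ≤ p → k ≤ K) (ht : K + p.size + Y ≤ t + 1) (hY1 : 1 ≤ Y)
    {l : ℕ} (hl : l.Prime) (hd : l ∣ p - 1) (hlE : l ^ E ≤ p)
    (hres : ∃ j, 1 ≤ j ∧ j ≤ Y ∧ isRes p l j = false) :
    HasNonresidue p l ((stp E)^[t] (ini p)).2.2.2.2.2 := by
  have : Fact p.Prime := ⟨hpp⟩
  obtain ⟨hx, h2⟩ := run' (E := E) hpp hp3 t
  set x := (stp E)^[t] (ini p) with hxdef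
  rcases h2 with h2 | h2
  · exact halt_has (by omega) hx h2 hl hd hlE
  · -- the current candidate is large
    have h3 := hK _ hx.hkE
    have h4 := length_le_of_prod (fun l hl => (hx.hprime l hl).1) _ hx.hR hx.hprod hpp.one_lt.le
    have hi : Y < x.2.2.2.2.1 := by omega
    have hph : p < x.2.1 ^ E := by
      by_contra hcon
      have := (hx.hph (by omega)).1
      omega
    have hlL : l ∈ x.2.2.2.1 := by
      rw [← hx.hprod] at hd
      rcases (Nat.Prime.dvd_mul hl).1 hd with h | h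
      · exfalso
        have h3 := hx.hrough l hl h
        have h4 : x.2.1 ^ E ≤ l ^ E := Nat.pow_le_pow_left h3 E
        omega
      · obtain ⟨a, ha, hla⟩ := (Prime.dvd_prod_iff hl.prime).1 h
        have := (Nat.prime_dvd_prime_iff_eq hl (hx.hprime a ha).1).1 hla
        rw [this]
        exact ha
    have h5 : ¬ (x.2.2.2.2.2.all fun s => isRes p l s) = true := by
      intro h3
      have hun : l ∈ unres p x.2.2.2.1 x.2.2.2.2.2 := List.mem_filter.2 ⟨hlL, h3⟩
      obtain ⟨j, hj1, hj2, hj3⟩ := hres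
      have := hx.hold l hun j hj1 (by omega)
      rw [hj3] at this
      exact Bool.noConfusion this
    rw [List.all_eq_true] at h5
    push Not at h5
    obtain ⟨s, hs, hs2⟩ := h5
    refine ⟨s, hs, ?_, ?_⟩
    · intro h0
      rw [ZMod.natCast_eq_zero_iff] at h0
      have h4 := hx.hS s hs
      have h5 := Nat.le_of_dvd (by omega) h0
      have h6 := hx.hiY
      omega
    · intro h0
      apply hs2
      unfold isRes
      rw [decide_eq_true_iff, pw_eq]
      have h4 : ((s ^ ((p - 1) / l) : ℕ) : ZMod p) = ((1 : ℕ) : ZMod p) := by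
        push_cast
        exact h0
      rw [ZMod.natCast_eq_natCast_iff] at h4
      apply md_congr
      have : max p 1 = p := max_eq_left hpp.one_lt.le
      rw [this]
      exact h4

/-- multiplicativity of residues -/
theorem pow_smooth {p e : ℕ} (s : ℕ) (hs : 1 ≤ s)
    (h : ∀ q : ℕ, q.Prime → q ∣ s → (q : ZMod p) ^ e = 1) : (s : ZMod p) ^ e = 1 := by
  induction s using Nat.recOnMul with
  | zero => omega
  | one => simp
  | prime q hq => exact h q hq dvd_rfl
  | mul a b iha ihb =>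
    have ha : 1 ≤ a := Nat.pos_of_ne_zero (by rintro rfl; simp at hs)
    have hb : 1 ≤ b := Nat.pos_of_ne_zero (by rintro rfl; simp at hs)
    push_cast
    rw [mul_pow, iha ha fun l hl hd => h l hl (hd.mul_right _),
      ihb hb fun l hl hd => h l hl (hd.mul_left _), one_mul]

/-- for large `l` the least `l`-th power nonresidue is at most `p ^ κ` -/
theorem large_l (κ : ℝ) (hκ : 0 < κ) (hκ1 : κ ≤ 1) : ∃ K p₀ : ℕ, ∀ p : ℕ, p₀ ≤ p → p.Prime →
    ∀ l : ℕ, l.Prime → l ∣ p - 1 → K < l → ∃ j : ℕ, 1 ≤ j ∧ (j : ℝ) ≤ (p : ℝ) ^ κ ∧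
      isRes p l j = false := by
  obtain ⟨c, hc, D0, hS⟩ := Pool.Agent.H471R4.BW.smo κ hκ hκ1
  obtain ⟨K, hK⟩ := exists_nat_ge (1 / c)
  refine ⟨K, D0, fun p hp hpp l hl hd hKl => ?_⟩
  obtain ⟨S, hS1, hS2⟩ := hS p hp
  have : Fact p.Prime := ⟨hpp⟩
  by_contra hcon
  push Not at hcon
  have hpos : (0 : ℝ) < p := by exact_mod_cast hpp.pos
  have hp1 : 0 < p - 1 := by have := hpp.one_lt; omega
  have hval : ∀ s ∈ S, s < p ∧ ((s : ℕ) : ZMod p) ^ ((p - 1) / l) = 1 := by
    intro s hs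
    obtain ⟨g1, g2, g3⟩ := hS1 s hs
    refine ⟨g2, pow_smooth s g1 fun q hq hqs => ?_⟩
    have h1 := hcon q hq.pos (g3 q hq hqs)
    have h2 : isRes p l q = true := by
      cases h : isRes p l q
      · exact absurd h h1
      · rfl
    unfold isRes at h2
    rw [decide_eq_true_iff, pw_eq] at h2
    have h4 : ((q ^ ((p - 1) / l) : ℕ) : ZMod p) = ((1 : ℕ) : ZMod p) := by
      rw [ZMod.natCast_eq_natCast_iff]
      have hmax : max p 1 = p := max_eq_left hpp.one_lt.le
      unfold md at h2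
      rw [hmax] at h2
      exact h2
    push_cast at h4
    exact h4
  have hcard := Pool.Agent.Y165.HN.card_roots hpp (d := (p - 1) / l)
    (Nat.div_pos (Nat.le_of_dvd hp1 hd) hl.pos) S hval
  have h5 : c * p ≤ ((p - 1) / l : ℕ) := hS2.trans (by exact_mod_cast hcard)
  have h6 : ((p - 1) / l : ℕ) * l ≤ p := by
    have := Nat.div_mul_le_self (p - 1) l
    omega
  have h7 : (((p - 1) / l : ℕ) : ℝ) * l ≤ p := by exact_mod_cast h6
  have hlK : (K : ℝ) < l := by exact_mod_cast hKl
  have h8 : 1 < c * l := by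
    rw [div_le_iff₀ hc] at hK
    nlinarith
  have h9 : c * p * l ≤ p := by
    calc c * p * l ≤ (((p - 1) / l : ℕ) : ℝ) * l := by gcongr
      _ ≤ p := h7
  nlinarith

/-- the final list: with `p - 1` and `2` added -/
def fin' (A C : ℕ) (s : St) : List ℕ :=
  candsS C s.1 (withSmall (s.1.size ^ A) ((s.1 - 1) :: 2 :: s.2.2.2.2.2))

theorem poly_fin' (A C : ℕ) : NPC.Poly (fin' A C) :=
  Pool.Agent.NPC.R562POL.poly_candsS C (NPC.Poly.fst NPC.Poly.id) (poly_withSmall
    ((Pool.Agent.NPC.H595POL.upoly_sizepow A).comp (NPC.Poly.fst NPC.Poly.id))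
    (NPC.Poly.cons (NPC.Poly.sub (NPC.Poly.fst NPC.Poly.id) (NPC.Poly.const 1))
      (NPC.Poly.cons (NPC.Poly.const 2)
        (NPC.Poly.snd (NPC.Poly.snd (NPC.Poly.snd (NPC.Poly.snd (NPC.Poly.snd NPC.Poly.id))))))))

/-- raw output -/
def cout' (A C : ℕ) (x : List Bool) : List Bool :=
  bits ((unbits (ℕ × St) x).elim [] (fun s => fin' A C s.2))

theorem polyTime_cout' (A C : ℕ) : NPC.PolyTime (cout' A C) := by
  refine polyTime_bits ?_
  have h := NPC.Poly.optCases (o := fun x : List Bool => unbits (ℕ × St) x)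
    (g := fun _ => ([] : List ℕ))
    (h := fun _ s => fin' A C s.2) poly_unbits (NPC.Poly.const _)
    ((poly_fin' A C).comp (NPC.Poly.snd (NPC.Poly.snd NPC.Poly.id)))
  refine h.congr fun x => ?_
  cases unbits (ℕ × St) x <;> rfl

/-- quadratic nonresidues for the primes which are not `1` modulo `8` -/
theorem two_has {p : ℕ} [Fact p.Prime] (hp3 : 3 ≤ p) (h8 : p % 8 ≠ 1) (s : List ℕ) :
    HasNonresidue p 2 ((p - 1) :: 2 :: s) := by
  have hpp : p.Prime := Fact.out
  have hp2 : p ≠ 2 := by omega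
  have hodd : p % 2 = 1 := hpp.eq_two_or_odd.resolve_left hp2
  have hhalf : (p - 1) / 2 = p / 2 := by omega
  by_cases h4 : p % 4 = 3
  · refine ⟨p - 1, by simp, ?_, ?_⟩
    · rw [Nat.cast_sub (by omega)]
      simp
    · rw [Nat.cast_sub (by omega), hhalf]
      simp only [CharP.cast_eq_zero, Nat.cast_one, zero_sub]
      have hodd2 : Odd (p / 2) := by
        rw [Nat.odd_iff]
        omega
      rw [hodd2.neg_one_pow]
      intro h
      have h1 : (2 : ZMod p) = 0 := by
        have : (2 : ZMod p) = 1 - (-1) := by ring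
        rw [this, h]; ring
      have h2 : ((2 : ℕ) : ZMod p) = 0 := by exact_mod_cast h1
      rw [ZMod.natCast_eq_zero_iff] at h2
      have := Nat.le_of_dvd (by norm_num) h2
      omega
  · have h5 : p % 8 = 5 := by omega
    have h20 : ((2 : ℕ) : ZMod p) ≠ 0 := by
      intro h2
      rw [ZMod.natCast_eq_zero_iff] at h2
      have := Nat.le_of_dvd (by norm_num) h2
      omega
    refine ⟨2, by simp, h20, ?_⟩
    rw [hhalf]
    intro h1
    have h6 : IsSquare ((2 : ℕ) : ZMod p) := (ZMod.euler_criterion p h20).2 h1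
    have h7 : IsSquare (2 : ZMod p) := by exact_mod_cast h6
    rw [ZMod.exists_sq_eq_two_iff hp2] at h7
    omega

open Classical in
/-- **Main theorem for residue classes.** -/
theorem main_cls (δ : ℝ) (hδ : 0 < δ) (B : ℕ) : ∃ (K C : ℕ) (η : ℝ) (F : ℕ → List ℕ), 0 < η ∧
    ComputedIn (fun p => (p : ℝ) ^ δ) F ∧ (∀ p : ℕ, (F p).length = p.size ^ C) ∧
    ∃ p₀ : ℕ, ∀ p : ℕ, p₀ ≤ p → p.Prime →
      (∀ l : ℕ, l.Prime → l ≤ K → l ∣ p - 1 → (l = 2 ∧ p % 8 ≠ 1) ∨
        ∃ i : ℕ, 1 ≤ i ∧ (i : ℝ) ≤ (p : ℝ) ^ η ∧ (i : ZMod p) ^ ((p - 1) / l) ≠ 1) →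
      p.size ^ B * #{i ∈ range (F p).length | ¬ IsPrimRoot p ((F p).getD i 0)} ≤
        (F p).length := by
  -- parameters
  obtain ⟨m, hm⟩ := exists_nat_gt (1 / δ)
  set E' : ℕ := m + 2 with hE'
  set E : ℕ := 2 * E' with hE
  have hE'0 : (0 : ℝ) < E' := by rw [hE']; positivity
  have hE'δ : 1 / (E' : ℝ) < δ := by
    rw [div_lt_iff₀ hδ] at hm
    rw [div_lt_iff₀ hE'0, hE']
    push_cast
    nlinarith
  have hE0 : (0 : ℝ) < E := by rw [hE]; positivity
  have hEE : (E : ℝ) = 2 * E' := by rw [hE]; push_cast; ring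
  have hinv : 1 / (E : ℝ) < 1 / (E' : ℝ) := by
    apply one_div_lt_one_div_of_lt hE'0
    linarith
  have hinv2 : 1 / (E' : ℝ) ≤ 1 / 2 := by
    apply one_div_le_one_div_of_le (by norm_num)
    rw [hE']
    push_cast
    linarith [Nat.cast_nonneg (α := ℝ) m]
  obtain ⟨A₂, hA₂⟩ := Gam_large (1 / E) (by positivity)
  obtain ⟨p₂, hp₂⟩ := hA₂ A₂ le_rfl
  set C := 2 + A₂ + B + 2 with hC
  obtain ⟨K, p₄, hK1⟩ := large_l (1 / E) (by positivity) (by linarith)
  -- eventual inequalities
  have hev : ∀ᶠ x : ℝ in atTop, x ^ (1 / E' : ℝ) + 2 ≤ x ^ δ ∧ x ^ (1 / E' : ℝ) + 2 ≤ x ∧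
      (x ^ (1 / E : ℝ) + 1) + (2 + 2 * Real.log x) + (x ^ (1 / E : ℝ) + 1) ≤
        x ^ (1 / E' : ℝ) ∧ 2 * (x ^ (1 / E : ℝ) + 1) < x ∧ 1 ≤ x ^ (1 / E : ℝ) := by
    have hc1 : (0 : ℝ) < 1 / E := by positivity
    have g1 := ev_pow (1 / E') δ (1 / 2) hE'δ (by norm_num)
    have g2 := ev_pow (1 / E') 1 (1 / 2) (by linarith) (by norm_num)
    have g3 := ev_pow (1 / E) (1 / E') (1 / 16) hinv (by norm_num)
    have g4 := (isLittleO_log_rpow_atTop (show (0 : ℝ) < 1 / E' by positivity)).bound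
      (show (0 : ℝ) < 1 / 16 by norm_num)
    filter_upwards [g1, g2, g3, g4, (tendsto_rpow_atTop hδ).eventually_ge_atTop 4,
      (tendsto_rpow_atTop (show (0 : ℝ) < 1 / E' by positivity)).eventually_ge_atTop 16,
      eventually_ge_atTop 4] with x g1 g2 g3 g4 g5 g6 g7
    have hx0 : 0 < x := lt_of_lt_of_le (by norm_num) g7
    have hx1 : 1 ≤ x := le_trans (by norm_num) g7
    rw [Real.rpow_one] at g2
    rw [Real.norm_of_nonneg (Real.log_nonneg hx1),
      Real.norm_of_nonneg (by positivity)] at g4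
    refine ⟨by linarith, by linarith, by linarith, by linarith, Real.one_le_rpow hx1 hc1.le⟩
  have tc : Tendsto (fun q : ℕ => (q : ℝ)) atTop atTop := tendsto_natCast_atTop_atTop
  obtain ⟨p₃, hp₃⟩ := eventually_atTop.1 (tc.eventually hev)
  -- the stopping time of the clock
  have hclock : ∀ p : ℕ, ∃ T : ℕ, (∀ c, c < T → c ^ E' ≤ p) ∧ p < T ^ E' := by
    intro p
    have hex : ∃ T : ℕ, p < T ^ E' := ⟨p + 1, by
      have : p + 1 ≤ (p + 1) ^ E' := Nat.le_self_pow (by omega) _
      omega⟩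
    refine ⟨Nat.find hex, fun c hc => ?_, Nat.find_spec hex⟩
    have := Nat.find_min hex hc
    omega
  choose T hT1 hT2 using hclock
  have hTpos : ∀ p, 1 ≤ T p := by
    intro p
    by_contra hcon
    have h0 : T p = 0 := by omega
    have h1 := hT2 p
    rw [h0, zero_pow (by omega)] at h1
    omega
  have hTle : ∀ p : ℕ, (T p : ℝ) ≤ (p : ℝ) ^ (1 / E' : ℝ) + 1 := by
    intro p
    have h1 := root_le (by omega) (hT1 p (T p - 1) (by have := hTpos p; omega))
    rw [Nat.cast_sub (hTpos p), Nat.cast_one] at h1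
    linarith
  have hTge : ∀ p : ℕ, (p : ℝ) ^ (1 / E' : ℝ) < T p := fun p => root_lt (by omega) (hT2 p)
  set F : ℕ → List ℕ := fun p => fin' A₂ C ((stp E)^[T p] (ini p)) with hF
  refine ⟨K, C, 1 / E, F, by positivity, ?_, fun p => ?_, max (max (max p₂ p₃) p₄) 3, ?_⟩
  · -- the computation
    refine ⟨cini, crnd E E', cout' A₂ C, polyTime_cini, polyTime_crnd E E', polyTime_cout' A₂ C,
      10, max p₃ 3, fun p hp hpp => ⟨fun t => ?_, T p, ?_, ?_, ?_⟩⟩
    · have : Fact p.Prime := ⟨hpp⟩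
      have hsz2 := two_le_size hpp
      have hinvs := fun t => (run' (E := E) hpp ((le_max_right _ _).trans hp) t).1
      have hY : p - 1 < p := by have := hpp.pos; omega
      obtain ⟨f1, f2, f3, f4, f5⟩ := hp₃ p ((le_max_left _ _).trans hp)
      have hTp : T p ≤ p := by
        have : (T p : ℝ) ≤ p := by linarith [hTle p]
        exact_mod_cast this
      have key : ∀ (c u : ℕ), c ≤ p →
          (bits ((c, (stp E)^[u] (ini p)) : ℕ × St)).length ≤ p.size ^ 10 := by
        intro c u hc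
        have h1 := state_size hpp.two_le (by omega) (hinvs u) hY
        rw [bits_length] at h1 ⊢
        rw [NPC.sz_pair]
        have h2 := sz_nat_bound hc
        calc sz c + sz ((stp E)^[u] (ini p)) + 1 ≤ (4 * p.size + 1) + 100 * p.size ^ 2 + 1 := by
              omega
          _ ≤ 2 ^ 8 * p.size ^ 2 := by nlinarith
          _ ≤ p.size ^ 8 * p.size ^ 2 := Nat.mul_le_mul_right _ (Nat.pow_le_pow_left hsz2 _)
          _ = p.size ^ 10 := by ring
      rw [citer]
      rcases le_total t (T p) with ht | ht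
      · rw [clk_iter (hT1 p) t ht]
        exact key t t (ht.trans hTp)
      · rw [clk_after (hT1 p) (hT2 p) t ht]
        exact key _ _ hTp
    · obtain ⟨f1, f2, f3, f4, f5⟩ := hp₃ p ((le_max_left _ _).trans hp)
      have := hTle p
      show (T p : ℝ) ≤ (p : ℝ) ^ δ
      linarith
    · rw [← Function.iterate_succ_apply' (crnd E E'), citer, citer,
        clk_after (hT1 p) (hT2 p) (T p + 1) (by omega), clk_after (hT1 p) (hT2 p) (T p) le_rfl]
    · rw [citer, clk_after (hT1 p) (hT2 p) (T p) le_rfl]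
      unfold cout'
      rw [unbits_bits]
      rfl
  · show (candsS _ _ _).length = _
    rw [length_candsS, iter_fst]
  · intro p hp0 hpp hcl
    have : Fact p.Prime := ⟨hpp⟩
    have hp4 : p₄ ≤ p := le_trans (le_trans (le_max_right _ _) (le_max_left _ _)) hp0
    have hp23 : max p₂ p₃ ≤ p := le_trans (le_trans (le_max_left _ _) (le_max_left _ _)) hp0
    have hp2 : p₂ ≤ p := le_trans (le_max_left _ _) hp23
    have hp3 : p₃ ≤ p := le_trans (le_max_right _ _) hp23
    have hp33 : 3 ≤ p := (le_max_right _ _).trans hp0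
    have hpos : (0 : ℝ) < p := by exact_mod_cast hpp.pos
    obtain ⟨f1, f2, f3, f4, f5⟩ := hp₃ p hp3
    set Y : ℕ := ⌊(p : ℝ) ^ (1 / E : ℝ)⌋₊ with hY
    have hYle : (Y : ℝ) ≤ (p : ℝ) ^ (1 / E : ℝ) := Nat.floor_le (by positivity)
    have hY1 : 1 ≤ Y := Nat.le_floor (by exact_mod_cast f5)
    have hKb : ∀ k : ℕ, (k - 1) ^ E ≤ p → k ≤ Y + 1 := by
      intro k hk
      have h1 := root_le (by omega) hk
      have h3 := Nat.le_floor h1
      omega
    have hsz2 := two_le_size hpp
    have hTbig : Y + 1 + p.size + Y ≤ T p + 1 := by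
      have h3 := size_le_log hpp.one_lt.le
      have h4 : ((Y + 1 + p.size + Y : ℕ) : ℝ) ≤ ((T p + 1 : ℕ) : ℝ) := by
        push_cast
        have := (hTge p).le
        linarith
      exact_mod_cast h4
    have hx := (run' (E := E) hpp hp33 (T p)).1
    set st := (stp E)^[T p] (ini p) with hst
    have hst1 : st.1 = p := hx.hp
    have e : F p = candsS C p (withSmall (p.size ^ A₂) ((p - 1) :: 2 :: st.2.2.2.2.2)) := by
      show fin' A₂ C ((stp E)^[T p] (ini p)) = _
      unfold fin'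
      rw [← hst, hst1]
    have hnon : ∀ l : ℕ, l.Prime → l ∣ p - 1 → (l : ℝ) < (p : ℝ) ^ (1 / E : ℝ) →
        HasNonresidue p l ((p - 1) :: 2 :: st.2.2.2.2.2) := by
      intro l hl hd hlp
      by_cases hl2 : l = 2 ∧ p % 8 ≠ 1
      · rw [hl2.1]
        exact two_has hp33 hl2.2 _
      obtain ⟨j, hj1, hj2, hj3⟩ : ∃ j : ℕ, 1 ≤ j ∧ (j : ℝ) ≤ (p : ℝ) ^ (1 / E : ℝ) ∧
          isRes p l j = false := by
        rcases lt_or_ge K l with hlK | hlK
        · exact hK1 p hp4 hpp l hl hd hlK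
        · rcases hcl l hl hlK hd with h | ⟨i, hi1, hi2, hi3⟩
          · exact absurd h hl2
          · refine ⟨i, hi1, hi2, ?_⟩
            by_contra hcon
            apply hi3
            have h2 : isRes p l i = true := by
              cases h : isRes p l i
              · exact absurd h hcon
              · rfl
            unfold isRes at h2
            rw [decide_eq_true_iff, pw_eq] at h2
            have h4 : ((i ^ ((p - 1) / l) : ℕ) : ZMod p) = ((1 : ℕ) : ZMod p) := by
              rw [ZMod.natCast_eq_natCast_iff]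
              have hmax : max p 1 = p := max_eq_left hpp.one_lt.le
              unfold md at h2
              rw [hmax] at h2
              exact h2
            push_cast at h4
            exact h4
      have hlE : l ^ E ≤ p := by
        have h1 : (l : ℝ) ^ E ≤ p := by
          calc (l : ℝ) ^ E ≤ ((p : ℝ) ^ (1 / E : ℝ)) ^ E :=
                pow_le_pow_left₀ (Nat.cast_nonneg _) hlp.le E
            _ = p := by
                rw [← Real.rpow_natCast, ← Real.rpow_mul hpos.le, one_div_mul_cancel hE0.ne',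
                  Real.rpow_one]
        exact_mod_cast h1
      obtain ⟨x, hx1, hx2, hx3⟩ := clock_has (t := T p) hpp hp33 hKb hTbig hY1 hl hd hlE
        ⟨j, hj1, Nat.le_floor hj2, hj3⟩
      exact ⟨x, by rw [← hst] at hx1; simp [hx1], hx2, hx3⟩
    have htop := top_of_nonresidues (Y := p.size ^ A₂) (1 / E) (hp₂ p hp2 hpp) hnon
    have hlen : (candsS C p (withSmall (p.size ^ A₂)
        ((p - 1) :: 2 :: st.2.2.2.2.2))).length = p.size ^ C := length_candsS _ _ _
    rw [e]
    simp only [hlen]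
    have h1 := coreS C p hpp (withSmall (p.size ^ A₂) ((p - 1) :: 2 :: st.2.2.2.2.2))
    rw [length_withSmall] at h1
    have hSlen : ((p - 1) :: 2 :: st.2.2.2.2.2).length ≤ p.size ^ 2 := by
      have h2 := hx.hlen
      have h3 := length_le_of_prod (fun l hl => (hx.hprime l hl).1) _ hx.hR hx.hprod
        hpp.one_lt.le
      rw [List.length_cons, List.length_cons]
      nlinarith
    have h2 := fits (n := p.size) (A := 2) (A' := A₂) (B := B)
      (L := ((p - 1) :: 2 :: st.2.2.2.2.2).length + p.size ^ A₂) hsz2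
      (Nat.add_le_add_right hSlen _) h1
    refine le_trans (Nat.mul_le_mul_left _ (card_le_card ?_)) h2
    intro i hi
    rw [mem_filter] at hi ⊢
    refine ⟨hi.1, fun hg => hi.2 ?_⟩
    rw [genS_iff, htop] at hg
    exact prim_of_generates hg

end Pool.Agent.NH20.BT
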