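import Pool.Agent.NH20.BT.Alg

/-!
# The rounds of the search take polynomial time
-/

set_option autoImplicit false

namespace Pool.Agent.NPC.NH20POL

open Pool.Agent.NPC Pool.Agent.H595R2.PR Pool.Agent.NPC.H595POL Pool.Agent.R562.PR
  Pool.Agent.NPC.R562POL Pool.Agent.NH20.BT

section

variable {α β : Type} [TEnc α] [TEnc β]

theorem poly_powC {k : α → ℕ} (hk : Poly k) (E : ℕ) : Poly (fun a => k a ^ E) := by
  induction E with
  | zero => exact (Poly.const 1).congr fun a => (pow_zero _).symm
  | succ E ih => exact (Poly.mul ih hk).congr fun a => (pow_succ _ _).symm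

theorem poly_isRes {p l s : α → ℕ} (hp : Poly p) (hl : Poly l) (hs : Poly s) :
    Poly (fun a => isRes (p a) (l a) (s a)) :=
  Poly.decide_eq (poly_pw hp hs (Poly.div (Poly.sub hp (Poly.const 1)) hl))
    (poly_md hp (Poly.const 1))

theorem poly_unres {p : α → ℕ} {L S : α → List ℕ} (hp : Poly p) (hL : Poly L) (hS : Poly S) :
    Poly (fun a => unres (p a) (L a) (S a)) := by
  refine Poly.filter (l := L) (p := fun a l => (S a).all fun s => isRes (p a) l s) hL ?_
  refine Poly.all (l := fun q : α × ℕ => S q.1) (p := fun q s => isRes (p q.1) q.2 s)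
    (hS.comp (Poly.fst Poly.id)) ?_
  exact poly_isRes (hp.comp (Poly.fst (Poly.fst Poly.id))) (Poly.snd (Poly.fst Poly.id))
    (Poly.snd Poly.id)

end

theorem poly_stp (E : ℕ) : Poly (stp E) := by
  have hp : Poly (fun x : St => x.1) := Poly.fst Poly.id
  have hk : Poly (fun x : St => x.2.1) := Poly.fst (Poly.snd Poly.id)
  have hR : Poly (fun x : St => x.2.2.1) := Poly.fst (Poly.snd (Poly.snd Poly.id))
  have hL : Poly (fun x : St => x.2.2.2.1) := Poly.fst (Poly.snd (Poly.snd (Poly.snd Poly.id)))
  have hi : Poly (fun x : St => x.2.2.2.2.1) :=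
    Poly.fst (Poly.snd (Poly.snd (Poly.snd (Poly.snd Poly.id))))
  have hS : Poly (fun x : St => x.2.2.2.2.2) :=
    Poly.snd (Poly.snd (Poly.snd (Poly.snd (Poly.snd Poly.id))))
  have hU : Poly (fun x : St => unres x.1 x.2.2.2.1 x.2.2.2.2.2) := poly_unres hp hL hS
  have hall : Poly (fun x : St => (unres x.1 x.2.2.2.1 x.2.2.2.2.2).all
      (fun l => isRes x.1 l x.2.2.2.2.1)) := by
    refine Poly.all (l := fun x : St => unres x.1 x.2.2.2.1 x.2.2.2.2.2)
      (p := fun x l => isRes x.1 l x.2.2.2.2.1) hU ?_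
    exact poly_isRes (hp.comp (Poly.fst Poly.id)) (Poly.snd Poly.id) (hi.comp (Poly.fst Poly.id))
  refine Poly.ite (p := fun x : St => x.2.1 ^ E ≤ x.1) (Poly.decide_le (poly_powC hk E) hp) ?_ ?_
  · refine Poly.ite (p := fun x : St => x.2.2.1 % x.2.1 = 0)
      (Poly.decide_eq (Poly.mod hR hk) (Poly.const 0)) ?_ ?_
    · exact Poly.pair hp (Poly.pair hk (Poly.pair (Poly.div hR hk) (Poly.pair (Poly.cons hk hL)
        (Poly.pair hi hS))))
    · exact Poly.pair hp (Poly.pair (Poly.succ hk) (Poly.pair hR (Poly.pair hL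
        (Poly.pair hi hS))))
  · refine Poly.ite (p := fun x : St => (unres x.1 x.2.2.2.1 x.2.2.2.2.2).isEmpty = true)
      (Poly.decide_bool (Poly.isEmpty hU)) Poly.id ?_
    refine Poly.pair hp (Poly.pair hk (Poly.pair hR (Poly.pair hL
        (Poly.pair (Poly.succ hi) ?_))))
    exact Poly.ite (p := fun x : St => (unres x.1 x.2.2.2.1 x.2.2.2.2.2).all
      (fun l => isRes x.1 l x.2.2.2.2.1) = true) (Poly.decide_bool hall) hS (Poly.cons hi hS)

theorem poly_ini : Poly ini :=
  Poly.pair Poly.id (Poly.pair (Poly.const 2) (Poly.pair (Poly.sub Poly.id (Poly.const 1))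
    (Poly.pair (Poly.const []) (Poly.pair (Poly.const 1) (Poly.const [])))))

/-- the raw functions on bit strings -/
def rini (x : List Bool) : List Bool := bits (ini (valB x))

/-- the raw round -/
def rstp (E : ℕ) (x : List Bool) : List Bool := bits ((unbits St x).elim (ini 0) (stp E))

/-- the list of candidates of a state -/
def fin (A C : ℕ) (s : St) : List ℕ := candsS C s.1 (withSmall (s.1.size ^ A) s.2.2.2.2.2)

/-- the raw output -/
def rfin (A C : ℕ) (x : List Bool) : List Bool := bits ((unbits St x).elim [] (fin A C))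

theorem polyTime_rini : PolyTime rini := polyTime_bits (poly_ini.comp (Poly.valBits Poly.id))

theorem polyTime_rstp (E : ℕ) : PolyTime (rstp E) := by
  refine polyTime_bits ?_
  have h := Poly.optCases (o := fun x : List Bool => unbits St x) (g := fun _ => ini 0)
    (h := fun _ s => stp E s) poly_unbits (Poly.const _) ((poly_stp E).comp (Poly.snd Poly.id))
  refine h.congr fun x => ?_
  cases unbits St x <;> rfl

theorem poly_fin (A C : ℕ) : Poly (fin A C) :=
  poly_candsS C (Poly.fst Poly.id) (poly_withSmall ((upoly_sizepow A).comp (Poly.fst Poly.id))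
    (Poly.snd (Poly.snd (Poly.snd (Poly.snd (Poly.snd Poly.id))))))

theorem polyTime_rfin (A C : ℕ) : PolyTime (rfin A C) := by
  refine polyTime_bits ?_
  have h := Poly.optCases (o := fun x : List Bool => unbits St x) (g := fun _ => ([] : List ℕ))
    (h := fun _ s => fin A C s) poly_unbits (Poly.const _) ((poly_fin A C).comp (Poly.snd Poly.id))
  refine h.congr fun x => ?_
  cases unbits St x <;> rfl

theorem rstp_bits (E : ℕ) (s : St) : rstp E (bits s) = bits (stp E s) := by
  unfold rstp
  rw [unbits_bits]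
  rfl

theorem rfin_bits (A C : ℕ) (s : St) : rfin A C (bits s) = bits (fin A C s) := by
  unfold rfin
  rw [unbits_bits]
  rfl

theorem iter_bits (E p t : ℕ) : (rstp E)^[t] (rini (Nat.bits p)) = bits ((stp E)^[t] (ini p)) := by
  induction t with
  | zero =>
    show rini (Nat.bits p) = _
    unfold rini
    rw [valB_bits]
    rfl
  | succ t ih => rw [Function.iterate_succ_apply', ih, rstp_bits, Function.iterate_succ_apply']

theorem sz_nat_bound {m p : ℕ} (h : m ≤ p) : sz m ≤ 4 * p.size + 1 := by
  have h1 := sz_nat_le m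
  have h2 := Nat.size_le_size h
  omega

theorem sz_list_bound {L : List ℕ} {p : ℕ} (h : ∀ l ∈ L, l ≤ p) (hL : L.length ≤ p.size) :
    sz L ≤ p.size * (4 * p.size + 2) + 1 := by
  have h1 := sz_le_length_mul L (4 * p.size + 1) fun a ha => sz_nat_bound (h a ha)
  have h2 : L.length * (4 * p.size + 1 + 1) ≤ p.size * (4 * p.size + 2) :=
    Nat.mul_le_mul_right _ hL
  omega

theorem sz_pair {α β : Type} [TEnc α] [TEnc β] (a : α) (b : β) : sz (a, b) = sz a + sz b + 1 := by
  simp

theorem state_size {p E Y : ℕ} {x : St} (hp2 : 2 ≤ p) (hE : 1 ≤ E) (hx : Inv p E Y x) (hY : Y < p) :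
    (bits x).length ≤ 100 * p.size ^ 2 := by
  rw [bits_length]
  obtain ⟨p', k, R, L, i, S⟩ := x
  obtain ⟨hp, hk, hR, hprod, hprime, hrough, hkE, hph, hi, hiY, hS, hlen, hold⟩ := hx
  simp only at hp hk hR hprod hprime hrough hkE hph hi hiY hS hlen hold
  subst hp
  have hsz : 2 ≤ p'.size := by
    have : 1 < p'.size := Nat.lt_size.2 (by simpa using hp2)
    omega
  have hLlen := length_le_of_prod (fun l hl => (hprime l hl).1) R hR hprod (by omega)
  have hkp : k ≤ p' + 1 := by
    have h1 : k - 1 ≤ (k - 1) ^ E := Nat.le_self_pow (by omega) _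
    omega
  have hRp : R ≤ p' := by
    have h1 : R ≤ R * L.prod := by
      apply Nat.le_mul_of_pos_right
      rw [Nat.pos_iff_ne_zero]
      intro h0
      rw [h0, mul_zero] at hprod
      omega
    omega
  have hLp : ∀ l ∈ L, l ≤ p' := by
    intro l hl
    have h1 : l ≤ l ^ E := Nat.le_self_pow (by omega) _
    exact h1.trans (hprime l hl).2
  have hSp : ∀ s ∈ S, s ≤ p' := by
    intro s hs
    have := hS s hs
    omega
  have hSlen : S.length ≤ p'.size := by omega
  have e1 := sz_nat_bound (le_refl p')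
  have e2 : sz k ≤ 4 * p'.size + 5 := by
    have h1 := sz_nat_le k
    have h2 : k.size ≤ (p' + 1).size := Nat.size_le_size hkp
    have h3 : (p' + 1).size ≤ p'.size + 1 := by
      rw [Nat.size_le]
      have := Nat.lt_size_self p'
      rw [pow_succ]
      omega
    omega
  have e3 := sz_nat_bound hRp
  have e4 := sz_list_bound hLp hLlen.le
  have e5 : sz i ≤ 4 * p'.size + 1 := sz_nat_bound (by omega)
  have e6 := sz_list_bound hSp hSlen
  rw [sz_pair, sz_pair, sz_pair, sz_pair, sz_pair]
  nlinarith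

end Pool.Agent.NPC.NH20POL
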