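import Pool.Agent.NH20.BT.Alg
import Pool.Agent.Y165.HN.Burg

/-!
# Burgess' bound for the least power nonresidue
-/

set_option autoImplicit false

namespace Pool.Agent.NH20.BT

open Finset Pool.Agent.NPC Pool.Agent.H595R2.PR Pool.Agent.R562.PR

/-- in a cyclic group the elements killed by `n / l` are `l`-th powers -/
theorem is_pow {G : Type} [CommGroup G] [Finite G] [IsCyclic G] {l : ℕ} (hl : 0 < l)
    (hd : l ∣ Nat.card G) {u : G} (hu : u ^ (Nat.card G / l) = 1) : ∃ v : G, v ^ l = u := by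
  obtain ⟨g, hg⟩ := IsCyclic.exists_generator (α := G)
  obtain ⟨k, hk⟩ := (Submonoid.mem_powers_iff u g).1 (mem_powers_iff_mem_zpowers.2 (hg u))
  have ho : orderOf g = Nat.card G := by
    rw [← Nat.card_zpowers, (Subgroup.eq_top_iff' _).2 hg, Subgroup.card_top]
  have h1 : g ^ (k * (Nat.card G / l)) = 1 := by rw [pow_mul, hk, hu]
  have h2 := orderOf_dvd_of_pow_eq_one h1
  rw [ho] at h2
  obtain ⟨m, hm⟩ := hd
  have hc0 : 0 < Nat.card G := Nat.card_pos
  have hm0 : 0 < m := by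
    rcases Nat.eq_zero_or_pos m with h | h
    · rw [h, mul_zero] at hm; omega
    · exact h
  rw [hm, Nat.mul_div_cancel_left m hl] at h2
  obtain ⟨j, rfl⟩ := Nat.dvd_of_mul_dvd_mul_right hm0 h2
  exact ⟨g ^ j, by rw [← pow_mul, mul_comm, hk]⟩

/-- a nontrivial character of order `l` -/
theorem exists_char {p l : ℕ} [Fact p.Prime] (hl : l.Prime) (hd : l ∣ p - 1) :
    ∃ χ : DirichletCharacter ℂ p, χ ≠ 1 ∧ χ ^ l = 1 := by
  classical
  haveI : Fact l.Prime := ⟨hl⟩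
  have hcard : Nat.card (DirichletCharacter ℂ p) = p - 1 := by
    rw [DirichletCharacter.card_eq_totient_of_hasEnoughRootsOfUnity ℂ p,
      Nat.totient_prime Fact.out]
  obtain ⟨χ, hχ⟩ := exists_prime_orderOf_dvd_card' (G := DirichletCharacter ℂ p) l
    (by rw [hcard]; exact hd)
  refine ⟨χ, ?_, ?_⟩
  · rintro rfl
    rw [orderOf_one] at hχ
    exact hl.one_lt.ne hχ
  · rw [← hχ]
    exact pow_orderOf_eq_one χ

/-- power nonresidues below the bound of Burgess and Vinogradov -/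
theorem burg_nonres (ε : ℝ) (hε : 0 < ε) : ∃ p₀ : ℕ, ∀ p : ℕ, p₀ ≤ p → p.Prime → ∀ Y : ℕ,
    (p : ℝ) ^ (1 / (4 * Real.exp (1 / 2)) + ε) < Y → Y < p →
    ∀ l : ℕ, l.Prime → l ∣ p - 1 → ∃ j, 1 ≤ j ∧ j ≤ Y ∧ isRes p l j = false := by
  obtain ⟨q0, hq0⟩ := Pool.Agent.Y165.HN.burg ε hε
  refine ⟨q0, fun p hp hpp Y hY hYp l hl hd => ?_⟩
  haveI : Fact p.Prime := ⟨hpp⟩
  obtain ⟨χ, hχ1, hχl⟩ := exists_char hl hd
  by_contra hcon
  push Not at hcon
  have h1 := hq0 p hp hpp χ hχ1 Y ?_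
  · linarith
  intro q hq hqY
  have hq0' : ((q : ℕ) : ZMod p) ≠ 0 := by
    intro h
    rw [ZMod.natCast_eq_zero_iff] at h
    have := Nat.le_of_dvd hq.pos h
    omega
  have h2 := hcon q hq.pos hqY
  have h3 : isRes p l q = true := by
    cases h : isRes p l q
    · exact absurd h h2
    · rfl
  unfold isRes at h3
  rw [decide_eq_true_iff, pw_eq] at h3
  have h4 : ((q ^ ((p - 1) / l) : ℕ) : ZMod p) = ((1 : ℕ) : ZMod p) := by
    rw [ZMod.natCast_eq_natCast_iff]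
    have hmax : max p 1 = p := max_eq_left hpp.one_lt.le
    unfold md at h3
    rw [hmax] at h3
    exact h3
  set u : (ZMod p)ˣ := Units.mk0 _ hq0' with hu
  have hcard : Nat.card (ZMod p)ˣ = p - 1 := by
    rw [Nat.card_eq_fintype_card, ZMod.card_units]
  have h5 : u ^ (Nat.card (ZMod p)ˣ / l) = 1 := by
    rw [hcard]
    apply Units.ext
    rw [Units.val_pow_eq_pow_val, hu, Units.val_mk0, Units.val_one]
    push_cast at h4
    exact h4
  obtain ⟨v, hv⟩ := is_pow hl.pos (by rw [hcard]; exact hd) h5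
  have h6 : ((q : ℕ) : ZMod p) = ((v ^ l : (ZMod p)ˣ) : ZMod p) := by
    rw [hv, hu, Units.val_mk0]
  rw [h6, Units.val_pow_eq_pow_val, map_pow, ← MulChar.pow_apply_coe, hχl]
  simp

end Pool.Agent.NH20.BT
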